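import Pool.Agent.Helper4.NotSpecht.Fedosov

/-! The block algebra. -/

namespace Pool.Agent.Helper4.NotSpecht

open ExteriorAlgebra

variable {F : Type*} [Field F] {M : Type*} [AddCommGroup M] [Module F M]

open AddMonoidAlgebra (single)

variable (F M) in
/-- polynomials in a central variable `s` with coefficients `2 × 2` matrices over `Om`. -/
abbrev PM := Polynomial (Matrix (Fin 2) (Fin 2) (Om F M))

section
variable [CharP F 3]

variable (F M) in
/-- the block algebra: coefficients in `A0`, the coefficient of `s^i` is diagonal for even `i` and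
antidiagonal for odd `i`, and the upper left entry of the constant coefficient is a scalar. -/
noncomputable def BB : Subalgebra F (PM F M) where
  carrier := {p | (∀ i a b, (p.coeff i) a b ∈ (A0 : Subalgebra F (Om F M))) ∧
    (∀ i (a b : Fin 2), (i + a.val + b.val) % 2 = 1 → p.coeff i a b = 0) ∧
    ∃ c : F, p.coeff 0 0 0 = algebraMap F _ c}
  mul_mem' := by
    rintro p q ⟨hp1, hp2, c, hc⟩ ⟨hq1, hq2, c', hc'⟩
    have hco : ∀ i a b, (p * q).coeff i a b =
        ∑ x ∈ Finset.HasAntidiagonal.antidiagonal i, ∑ l, p.coeff x.1 a l * q.coeff x.2 l b := by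
      intro i a b
      rw [Polynomial.coeff_mul, Matrix.sum_apply]
      exact Finset.sum_congr rfl fun x _ => Matrix.mul_apply
    refine ⟨?_, ?_, ?_⟩
    · intro i a b
      rw [hco]
      exact sum_mem fun x _ => sum_mem fun l _ => mul_mem (hp1 _ _ _) (hq1 _ _ _)
    · intro i a b h
      rw [hco]
      refine Finset.sum_eq_zero fun x hx => Finset.sum_eq_zero fun l _ => ?_
      rw [Finset.HasAntidiagonal.mem_antidiagonal] at hx
      by_cases h1 : (x.1 + a.val + l.val) % 2 = 1
      · rw [hp2 _ _ _ h1, zero_mul]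
      · have h2 : (x.2 + l.val + b.val) % 2 = 1 := by omega
        rw [hq2 _ _ _ h2, mul_zero]
    · refine ⟨c * c', ?_⟩
      rw [Polynomial.mul_coeff_zero, Matrix.mul_apply, Fin.sum_univ_two, hc, hc',
        hp2 0 0 1 (by simp), zero_mul, add_zero, map_mul]
  add_mem' := by
    rintro p q ⟨hp1, hp2, c, hc⟩ ⟨hq1, hq2, c', hc'⟩
    refine ⟨fun i a b => ?_, fun i a b h => ?_, c + c', ?_⟩
    · rw [Polynomial.coeff_add, Matrix.add_apply]; exact add_mem (hp1 _ _ _) (hq1 _ _ _)
    · rw [Polynomial.coeff_add, Matrix.add_apply, hp2 _ _ _ h, hq2 _ _ _ h, add_zero]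
    · rw [Polynomial.coeff_add, Matrix.add_apply, hc, hc', map_add]
  algebraMap_mem' := by
    intro c
    have e : ∀ i a b, (algebraMap F (PM F M) c).coeff i a b =
        if i = 0 then (if a = b then algebraMap F _ c else 0) else 0 := by
      intro i a b
      rw [Polynomial.algebraMap_apply, Polynomial.coeff_C]
      split_ifs with h1 h2
      · subst h2; rw [Matrix.algebraMap_matrix_apply, if_pos rfl]
      · rw [Matrix.algebraMap_matrix_apply, if_neg h2]
      · rfl
    refine ⟨fun i a b => ?_, fun i a b h => ?_, c, ?_⟩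
    · rw [e]
      split_ifs
      · exact Subalgebra.algebraMap_mem _ _
      · exact zero_mem _
      · exact zero_mem _
    · rw [e]
      split_ifs with h1 h2
      · subst h1 h2; omega
      · rfl
      · rfl
    · rw [e]; simp

lemma mem_BB {p : PM F M} : p ∈ BB F M ↔
    (∀ i a b, (p.coeff i) a b ∈ (A0 : Subalgebra F (Om F M))) ∧
    (∀ i (a b : Fin 2), (i + a.val + b.val) % 2 = 1 → p.coeff i a b = 0) ∧
    ∃ c : F, p.coeff 0 0 0 = algebraMap F _ c := Iff.rfl

/-- The constant coefficient of an element of `BB` is diagonal. -/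
lemma BB_coeff_zero {p : PM F M} (hp : p ∈ BB F M) :
    p.coeff 0 = Matrix.diagonal ![p.coeff 0 0 0, p.coeff 0 1 1] := by
  obtain ⟨_, h2, _⟩ := hp
  ext a b
  fin_cases a <;> fin_cases b <;> simp [h2 0 0 1, h2 0 1 0]

lemma BB_coeff_one {p : PM F M} (hp : p ∈ BB F M) :
    p.coeff 1 = !![0, p.coeff 1 0 1; p.coeff 1 1 0, 0] := by
  obtain ⟨_, h2, _⟩ := hp
  ext a b
  fin_cases a <;> fin_cases b <;> simp [h2 1 0 0, h2 1 1 1]

lemma BB_qq {x : ℕ → PM F M} (hx : ∀ i, x i ∈ BB F M) {j : ℕ} (hj : 0 < j) :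
    (qq x j).coeff 0 = Matrix.diagonal ![0, qq (fun i => (x i).coeff 0 1 1) j] := by
  have h1 : (qq x j).coeff 0 = qq (fun i => (x i).coeff 0) j :=
    map_qq (Polynomial.constantCoeff : PM F M →+* _) x j
  have h2 : (fun i => (x i).coeff 0) =
      fun i => Matrix.diagonalRingHom (Fin 2) (Om F M) ![(x i).coeff 0 0 0, (x i).coeff 0 1 1] := by
    funext i; exact BB_coeff_zero (hx i)
  rw [h1, h2, ← map_qq]
  have h3 : qq (fun i => ![(x i).coeff 0 0 0, (x i).coeff 0 1 1]) j =
      ![0, qq (fun i => (x i).coeff 0 1 1) j] := by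
    funext a
    have := map_qq (Pi.evalRingHom (fun _ : Fin 2 => Om F M) a)
      (fun i => ![(x i).coeff 0 0 0, (x i).coeff 0 1 1]) j
    rw [Pi.evalRingHom_apply] at this
    rw [this]
    fin_cases a
    · choose c hc using fun i => (hx i).2.2
      have h4 : qq (fun i => (x i).coeff 0 0 0) j = algebraMap F _ (qq c j) := by
        rw [map_qq]; congr 1; funext i; exact hc i
      simpa [qq_comm c hj] using h4
    · simp
  rw [h3]; rfl

/-- The commutator `[z, y^3]` has zero constant coefficient. -/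
lemma BB_Z {z y : PM F M} (hz : z ∈ BB F M) (hy : y ∈ BB F M) :
    (z * y ^ 3 - y ^ 3 * z).coeff 0 = 0 := by
  have h1 : (z * y ^ 3 - y ^ 3 * z).coeff 0 = z.coeff 0 * y.coeff 0 ^ 3 - y.coeff 0 ^ 3 * z.coeff 0 := by
    simp only [← Polynomial.constantCoeff_apply, map_sub, map_mul, map_pow]
  rw [h1, BB_coeff_zero hz, BB_coeff_zero hy, Matrix.diagonal_pow, Matrix.diagonal_mul_diagonal,
    Matrix.diagonal_mul_diagonal, Matrix.diagonal_sub]
  obtain ⟨c, hc⟩ := hy.2.2
  obtain ⟨c', hc'⟩ := A0_cube (hy.1 0 1 1)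
  ext a b
  fin_cases a <;> fin_cases b <;> simp [hc, hc', ← map_pow]
  · rw [Algebra.commutes, sub_self]
  · rw [Algebra.commutes, sub_self]

omit [CharP F 3] [AddCommGroup M] [Module F M] in
lemma corner {R : Type*} [Ring R] (n n2 m m2 b c Q : R) (hQ : ∀ x, Q * x = x * Q) :
    ((Matrix.diagonal ![n, n2]) * !![0, b; c, 0] * Matrix.diagonal ![0, Q] * !![0, b; c, 0] ^ 5 *
      Matrix.diagonal ![m, m2]) 0 0 = n * (b * c) ^ 3 * Q * m := by
  have hd : ∀ u v : R, Matrix.diagonal ![u, v] = !![u, 0; 0, v] := by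
    intro u v
    ext i j
    fin_cases i <;> fin_cases j <;> simp
  have h5 : (!![0, b; c, 0] : Matrix (Fin 2) (Fin 2) R) ^ 5 =
      !![0, b * c * b * c * b; c * b * c * b * c, 0] := by
    simp only [pow_succ, pow_zero, one_mul, Matrix.mul_fin_two, mul_zero, zero_mul, add_zero,
      zero_add]
  rw [h5, hd, hd, hd]
  simp only [Matrix.mul_fin_two, mul_zero, zero_mul, add_zero, zero_add]
  simp only [Matrix.of_apply, Matrix.cons_val_zero, Matrix.cons_val', Matrix.cons_val_fin_one]
  calc n * b * Q * (c * b * c * b * c) * m = n * b * (Q * (c * b * c * b * c)) * m := by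
        noncomm_ring
    _ = _ := by rw [hQ]; noncomm_ring

/-- Value of `N w N'` in the corner. -/
lemma BB_ww {z y N N' : PM F M} {x : ℕ → PM F M} (hz : z ∈ BB F M) (hy : y ∈ BB F M)
    (hN : N ∈ BB F M) (hN' : N' ∈ BB F M) (hx : ∀ i, x i ∈ BB F M) {j : ℕ} (hj : 0 < j) :
    (N * ww z y x j * N').coeff 6 0 0 =
      N.coeff 0 0 0 * ((z * y ^ 3 - y ^ 3 * z).coeff 1 0 1 * (z * y ^ 3 - y ^ 3 * z).coeff 1 1 0) ^ 3 *
        qq (fun i => (x i).coeff 0 1 1) j * N'.coeff 0 0 0 := by
  set Z := z * y ^ 3 - y ^ 3 * z with hZdef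
  have hZ : Z ∈ BB F M := sub_mem (mul_mem hz (pow_mem hy 3)) (mul_mem (pow_mem hy 3) hz)
  have hZ0 : Z.coeff 0 = 0 := BB_Z hz hy
  have hZX : Z = Z.divX * Polynomial.X := by
    have := Polynomial.divX_mul_X_add Z
    rw [hZ0, map_zero, add_zero] at this
    exact this.symm
  have h1 : N * ww z y x j * N' = (N * Z.divX * qq x j * Z.divX ^ 5 * N') * Polynomial.X ^ 6 := by
    have hX : ∀ p : PM F M, Polynomial.X * p = p * Polynomial.X := fun p => Polynomial.X_mul
    have hXc : ∀ p : PM F M, Commute Polynomial.X p := fun p => Polynomial.commute_X p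
    rw [ww, ← hZdef]
    nth_rw 1 2 [hZX]
    rw [((hXc Z.divX).symm).mul_pow 5]
    have e1 : Z.divX * Polynomial.X * qq x j = Z.divX * qq x j * Polynomial.X := by
      rw [mul_assoc, hX, ← mul_assoc]
    have e2 : Polynomial.X * (Z.divX ^ 5 * Polynomial.X ^ 5) = Z.divX ^ 5 * Polynomial.X ^ 6 := by
      rw [← mul_assoc, hX, mul_assoc, ← pow_succ']
    have e3 : (Polynomial.X : PM F M) ^ 6 * N' = N' * Polynomial.X ^ 6 :=
      ((hXc N').pow_left 6).eq
    calc N * (Z.divX * Polynomial.X * qq x j * (Z.divX ^ 5 * Polynomial.X ^ 5)) * N'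
        = N * (Z.divX * qq x j * (Polynomial.X * (Z.divX ^ 5 * Polynomial.X ^ 5))) * N' := by
          rw [e1]; simp only [mul_assoc]
      _ = N * (Z.divX * qq x j * Z.divX ^ 5) * (Polynomial.X ^ 6 * N') := by
          rw [e2]; simp only [mul_assoc]
      _ = _ := by rw [e3]; simp only [mul_assoc]
  have h2 : (N * ww z y x j * N').coeff 6 =
      N.coeff 0 * Z.coeff 1 * (qq x j).coeff 0 * (Z.coeff 1) ^ 5 * N'.coeff 0 := by
    rw [h1]
    have : ((N * Z.divX * qq x j * Z.divX ^ 5 * N') * Polynomial.X ^ 6).coeff (0 + 6) =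
      (N * Z.divX * qq x j * Z.divX ^ 5 * N').coeff 0 := Polynomial.coeff_mul_X_pow _ _ _
    rw [zero_add] at this
    rw [this]
    have h5 : Z.divX.coeff 0 = Z.coeff 1 := by rw [Polynomial.coeff_divX]
    rw [← h5]
    simp only [← Polynomial.constantCoeff_apply, map_mul, map_pow]
  rw [h2, BB_coeff_one hZ, BB_qq hx hj, BB_coeff_zero hN, BB_coeff_zero hN']
  have hqc := qq_central (fun i => (hx i).1 0 1 1) j
  rw [corner _ _ _ _ _ _ _ hqc]
  rfl

end

end Pool.Agent.Helper4.NotSpecht
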