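import Pool.Agent.Helper4.NotSpecht.Top

/-! The concrete commutative ring and the functional. -/

namespace Pool.Agent.Helper4.NotSpecht

open MvPolynomial

variable (F : Type*) [Field F]

/-- polynomial ring in letters `x_i = X (i,false)`, `y_i = X (i,true)`. -/
abbrev PP := MvPolynomial (ℕ × Bool) F

noncomputable def gg : PP F →ₐ[F] PP F :=
  aeval (fun p : ℕ × Bool => if p.2 then X (p.1, true) else X (p.1, false) + X (p.1, true))

lemma gg_f (i : ℕ) : gg F (X (i, false)) = X (i, false) + X (i, true) := by simp [gg]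
lemma gg_t (i : ℕ) : gg F (X (i, true)) = X (i, true) := by simp [gg]

lemma pd_gg_f (i : ℕ) (p : PP F) : pderiv (i, false) (gg F p) = gg F (pderiv (i, false) p) := by
  classical
  induction p using MvPolynomial.induction_on with
  | C a => simp [gg]
  | add p q hp hq => simp [map_add, hp, hq]
  | mul_X p n hp =>
    obtain ⟨j, b⟩ := n
    rw [map_mul, Derivation.leibniz, Derivation.leibniz, hp, map_add, smul_eq_mul, smul_eq_mul,
      smul_eq_mul, smul_eq_mul, map_mul, map_mul]
    congr 2
    cases b
    · rw [gg_f, map_add, pderiv_X, pderiv_X]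
      simp [Pi.single_apply]
    · rw [gg_t, pderiv_X]
      simp

lemma pd_gg_t (i : ℕ) (p : PP F) :
    pderiv (i, true) (gg F p) = gg F (pderiv (i, true) p) + gg F (pderiv (i, false) p) := by
  classical
  induction p using MvPolynomial.induction_on with
  | C a => simp [gg]
  | add p q hp hq => simp only [map_add, hp, hq]; ring
  | mul_X p n hp =>
    obtain ⟨j, b⟩ := n
    have key : pderiv (i, true) (gg F (X (j, b))) =
        gg F (pderiv (i, true) (X (j, b))) + gg F (pderiv (i, false) (X (j, b))) := by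
      cases b
      · rw [gg_f, map_add, pderiv_X, pderiv_X, pderiv_X]
        simp [Pi.single_apply]
      · rw [gg_t, pderiv_X, pderiv_X]
        simp [Pi.single_apply]
    rw [map_mul, Derivation.leibniz, Derivation.leibniz, Derivation.leibniz, hp, key]
    simp only [smul_eq_mul, map_add, map_mul]
    ring

/-- the contraction of the letters `2k`, `2k+1`. -/
noncomputable def Dl (k : ℕ) : PP F →ₗ[F] PP F :=
  (pderiv (2 * k, false)).toLinearMap ∘ₗ (pderiv (2 * k + 1, true)).toLinearMap -
    (pderiv (2 * k, true)).toLinearMap ∘ₗ (pderiv (2 * k + 1, false)).toLinearMap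

lemma Dl_apply (k : ℕ) (p : PP F) : Dl F k p =
    pderiv (2 * k, false) (pderiv (2 * k + 1, true) p) -
    pderiv (2 * k, true) (pderiv (2 * k + 1, false) p) := rfl

lemma Dl_gg (k : ℕ) (p : PP F) : Dl F k (gg F p) = gg F (Dl F k p) := by
  rw [Dl_apply, Dl_apply, pd_gg_t, pd_gg_f, map_add, pd_gg_f, pd_gg_f, pd_gg_t, map_sub]
  ring

noncomputable def tau : ℕ → (PP F →ₗ[F] F)
  | 0 => (MvPolynomial.aeval (fun _ => (0 : F)) : PP F →ₐ[F] F).toLinearMap
  | k + 1 => (tau k).comp (Dl F k)

lemma tau_zero (p : PP F) : tau F 0 p = MvPolynomial.aeval (fun _ => (0 : F)) p := rfl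
lemma tau_succ (k : ℕ) (p : PP F) : tau F (k + 1) p = tau F k (Dl F k p) := rfl

lemma tau_gg (k : ℕ) (p : PP F) : tau F k (gg F p) = tau F k p := by
  induction k generalizing p with
  | zero =>
    rw [tau_zero, tau_zero]
    have : ((MvPolynomial.aeval (fun _ => (0 : F)) : PP F →ₐ[F] F).comp (gg F)) =
        MvPolynomial.aeval (fun _ => (0 : F)) := by
      apply MvPolynomial.algHom_ext
      rintro ⟨j, b⟩
      cases b <;> simp [gg]
    exact congrArg (fun f : PP F →ₐ[F] F => f p) this
  | succ k ih => rw [tau_succ, tau_succ, Dl_gg, ih]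

lemma tau_homog (k n : ℕ) (hn : n < 2 * k) (p : PP F) (hp : p.IsHomogeneous n) :
    tau F k p = 0 := by
  induction k generalizing n p with
  | zero => omega
  | succ k ih =>
    rw [tau_succ]
    by_cases h2 : 2 ≤ n
    · apply ih (n - 1 - 1) (by omega)
      rw [Dl_apply]
      exact (hp.pderiv.pderiv).sub (hp.pderiv.pderiv)
    · have h0 : ∀ i j : ℕ × Bool, pderiv i (pderiv j p) = 0 := by
        intro i j
        have h1 : (pderiv j p).IsHomogeneous 0 := by
          have := hp.pderiv (i := j)
          have e : n - 1 = 0 := by omega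
          rwa [e] at this
        rw [← MvPolynomial.totalDegree_zero_iff_isHomogeneous,
          MvPolynomial.totalDegree_eq_zero_iff_eq_C] at h1
        rw [h1, pderiv_C]
      rw [Dl_apply, h0, h0, sub_zero, map_zero]

/-- bracket -/
noncomputable def cc (l : ℕ) : PP F :=
  X (2 * l, false) * X (2 * l + 1, true) - X (2 * l, true) * X (2 * l + 1, false)

lemma pderiv_cc_of_lt {l j : ℕ} (h : 2 * l + 1 < j) (b : Bool) : pderiv (j, b) (cc F l) = 0 := by
  have h1 : ∀ b', ((2 * l, b') : ℕ × Bool) ≠ (j, b) := by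
    intro b' hh; have := congrArg Prod.fst hh; simp at this; omega
  have h2 : ∀ b', ((2 * l + 1, b') : ℕ × Bool) ≠ (j, b) := by
    intro b' hh; have := congrArg Prod.fst hh; simp at this; omega
  rw [cc, map_sub, Derivation.leibniz, Derivation.leibniz, pderiv_X_of_ne (h1 _),
    pderiv_X_of_ne (h1 _), pderiv_X_of_ne (h2 _), pderiv_X_of_ne (h2 _)]
  simp

/-- product of brackets -/
noncomputable def pc : ℕ → PP F
  | 0 => 1
  | k + 1 => pc k * cc F k

lemma pderiv_pc {k j : ℕ} (h : 2 * k ≤ j) (b : Bool) : pderiv (j, b) (pc F k) = 0 := by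
  induction k with
  | zero => simp [pc]
  | succ k ih =>
    rw [pc, Derivation.leibniz, ih (by omega), pderiv_cc_of_lt F (by omega)]
    simp

lemma Dl_pc (k : ℕ) : Dl F k (pc F (k + 1)) = 2 * pc F k := by
  have a1 : ∀ b b', ((2 * k, b') : ℕ × Bool) ≠ (2 * k + 1, b) := by
    intro b b' hh; have := congrArg Prod.fst hh; simp at this
  have a2 : ∀ b b', ((2 * k + 1, b') : ℕ × Bool) ≠ (2 * k, b) := by
    intro b b' hh; have := congrArg Prod.fst hh; simp at this
  have a3 : ((2 * k, true) : ℕ × Bool) ≠ (2 * k, false) := by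
    intro hh; have := congrArg Prod.snd hh; simp at this
  have a4 : ((2 * k + 1, true) : ℕ × Bool) ≠ (2 * k + 1, false) := by
    intro hh; have := congrArg Prod.snd hh; simp at this
  have c1 : pderiv (2 * k + 1, true) (cc F k) = X (2 * k, false) := by
    rw [cc, map_sub, Derivation.leibniz, Derivation.leibniz, pderiv_X_self,
      pderiv_X_of_ne (a1 _ _), pderiv_X_of_ne (a1 _ _), pderiv_X_of_ne a4.symm]
    simp
  have c2 : pderiv (2 * k + 1, false) (cc F k) = - X (2 * k, true) := by
    rw [cc, map_sub, Derivation.leibniz, Derivation.leibniz, pderiv_X_self,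
      pderiv_X_of_ne (a1 _ _), pderiv_X_of_ne (a1 _ _), pderiv_X_of_ne a4]
    simp
  have d0 : ∀ b, pderiv (2 * k, b) (pc F k) = 0 := fun b => pderiv_pc F le_rfl b
  have d1 : ∀ b, pderiv (2 * k + 1, b) (pc F k) = 0 := fun b => pderiv_pc F (by omega) b
  rw [Dl_apply, pc, Derivation.leibniz, Derivation.leibniz, c1, c2, d1, d1]
  rw [smul_zero, add_zero, add_zero, smul_eq_mul, smul_eq_mul, Derivation.leibniz,
    Derivation.leibniz, map_neg, pderiv_X_self, pderiv_X_self, d0, d0]
  simp only [smul_zero, add_zero, smul_eq_mul]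
  ring

lemma tau_pc (k : ℕ) : tau F k (pc F k) = 2 ^ k := by
  induction k with
  | zero => simp [tau_zero, pc]
  | succ k ih =>
    rw [tau_succ, Dl_pc]
    have : (2 : PP F) * pc F k = (2 : F) • pc F k := by
      rw [MvPolynomial.smul_eq_C_mul, map_ofNat]
    rw [this, map_smul, ih, smul_eq_mul, pow_succ']

end Pool.Agent.Helper4.NotSpecht
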