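import Pool.Agent.Helper4.NotSpecht.Omega

/-! The Fedosov subalgebra and the values of the polynomials `q_j`. -/

namespace Pool.Agent.Helper4.NotSpecht

open ExteriorAlgebra

variable {F : Type*} [Field F] {M : Type*} [AddCommGroup M] [Module F M]

open AddMonoidAlgebra (single)

/-- `q_j = ∏_{l<j} r_{2l}^2 [r_{2l}, r_{2l+1}] r_{2l+1}^2`. -/
def qq {R : Type*} [Ring R] (r : ℕ → R) : ℕ → R
  | 0 => 1
  | j + 1 => qq r j * (r (2 * j) ^ 2 * (r (2 * j) * r (2 * j + 1) - r (2 * j + 1) * r (2 * j)) *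
      r (2 * j + 1) ^ 2)

lemma map_qq {R S : Type*} [Ring R] [Ring S] (φ : R →+* S) (r : ℕ → R) (j : ℕ) :
    φ (qq r j) = qq (fun i => φ (r i)) j := by
  induction j with
  | zero => simp [qq]
  | succ j ih => simp [qq, ih]

lemma qq_comm {R : Type*} [CommRing R] (r : ℕ → R) {j : ℕ} (hj : 0 < j) : qq r j = 0 := by
  obtain ⟨i, rfl⟩ : ∃ i, j = i + 1 := ⟨j - 1, by omega⟩
  simp only [qq]; ring

/-- `w_j = [z, y^3] q_j [z, y^3]^5`. -/
def ww {R : Type*} [Ring R] (z y : R) (r : ℕ → R) (j : ℕ) : R :=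
  (z * y ^ 3 - y ^ 3 * z) * qq r j * (z * y ^ 3 - y ^ 3 * z) ^ 5

lemma map_ww {R S : Type*} [Ring R] [Ring S] (φ : R →+* S) (z y : R) (r : ℕ → R) (j : ℕ) :
    φ (ww z y r j) = ww (φ z) (φ y) (fun i => φ (r i)) j := by
  simp [ww, map_qq]

/-- The Fedosov algebra `{a + da : a even}`. -/
noncomputable def A0 [CharP F 3] : Subalgebra F (Om F M) where
  carrier := {u | ∃ a, s a = a ∧ u = a + d a}
  mul_mem' := by
    rintro _ _ ⟨a, ha, rfl⟩ ⟨b, hb, rfl⟩
    have hda : s (d a) = - d a := by rw [s_d, ha]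
    have hdb : s (d b) = - d b := by rw [s_d, hb]
    refine ⟨a * b + d a * d b, ?_, ?_⟩
    · rw [map_add, map_mul, map_mul, ha, hb, hda, hdb, neg_mul_neg]
    · rw [map_add, d_mul, d_mul, d_d, d_d, ha]
      noncomm_ring
  add_mem' := by
    rintro _ _ ⟨a, ha, rfl⟩ ⟨b, hb, rfl⟩
    exact ⟨a + b, by rw [map_add, ha, hb], by rw [map_add]; abel⟩
  algebraMap_mem' := fun c => ⟨algebraMap F _ c, s.commutes c, by rw [d_algebraMap, add_zero]⟩

section
variable [CharP F 3]

lemma mem_A0 {u : Om F M} : u ∈ (A0 : Subalgebra F (Om F M)) ↔ ∃ a, s a = a ∧ u = a + d a :=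
  Iff.rfl

lemma A0_cube {u : Om F M} (hu : u ∈ (A0 : Subalgebra F (Om F M))) :
    ∃ c : F, u ^ 3 = algebraMap F _ c := by
  obtain ⟨a, ha, rfl⟩ := hu
  have hda : s (d a) = - d a := by rw [s_d, ha]
  have h3 : (3 : Om F M) = 0 := three_eq_zero_of_algebra (F := F)
  rw [cube_add h3 (s_even_comm ha _), pow_succ (d a), pow_two (d a), s_odd_sq hda, zero_mul,
    add_zero]
  exact (even_main' ha).1

/-- `a² da`. -/
noncomputable def tt (a : Om F M) : Om F M := a ^ 2 * d a

lemma A0_q {a b : Om F M} (ha : s a = a) (hb : s b = b) :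
    (a + d a) ^ 2 * ((a + d a) * (b + d b) - (b + d b) * (a + d a)) * (b + d b) ^ 2 =
      -(tt a * tt b) := by
  have hda : s (d a) = - d a := by rw [s_d, ha]
  have hdb : s (d b) = - d b := by rw [s_d, hb]
  have ca : ∀ x, a * x = x * a := s_even_comm ha
  have cb : ∀ x, b * x = x * b := s_even_comm hb
  have haa : d a * d a = 0 := s_odd_sq hda
  have hbb : d b * d b = 0 := s_odd_sq hdb
  have hba : d b * d a = - (d a * d b) := s_odd_anti hdb hda
  have hcomm : (a + d a) * (b + d b) - (b + d b) * (a + d a) = -(d a * d b) := by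
    calc (a + d a) * (b + d b) - (b + d b) * (a + d a)
        = (a * b - b * a) + (a * d b - d b * a) + (d a * b - b * d a) +
          (d a * d b - d b * d a) := by noncomm_ring
      _ = d a * d b + d a * d b := by rw [ca b, ca (d b), cb (d a), hba]; noncomm_ring
      _ = -(d a * d b) := by
        rw [eq_neg_double F (d a * d b)]; simp only [neg_add, neg_neg]
        rw [← neg_add, ← eq_neg_double F]
  have hsq : (a + d a) ^ 2 = a ^ 2 + (a * d a + a * d a) := by
    calc (a + d a) ^ 2 = a ^ 2 + a * d a + d a * a + d a * d a := by noncomm_ring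
      _ = _ := by rw [haa, ← ca (d a)]; noncomm_ring
  have hsq' : (b + d b) ^ 2 = b ^ 2 + (d b * b + d b * b) := by
    calc (b + d b) ^ 2 = b ^ 2 + b * d b + d b * b + d b * d b := by noncomm_ring
      _ = _ := by rw [hbb, cb (d b)]; noncomm_ring
  rw [hcomm, hsq, hsq', tt, tt]
  have e1 : (a ^ 2 + (a * d a + a * d a)) * -(d a * d b) = -(a ^ 2 * d a * d b) := by
    calc (a ^ 2 + (a * d a + a * d a)) * -(d a * d b) =
      -(a ^ 2 * d a * d b) - (a * (d a * d a) * d b + a * (d a * d a) * d b) := by noncomm_ring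
      _ = _ := by rw [haa]; noncomm_ring
  rw [e1]
  have e2 : -(a ^ 2 * d a * d b) * (b ^ 2 + (d b * b + d b * b)) = - (a ^ 2 * d a * (d b * b ^ 2)) := by
    calc -(a ^ 2 * d a * d b) * (b ^ 2 + (d b * b + d b * b)) =
      - (a ^ 2 * d a * (d b * b ^ 2)) - (a ^ 2 * d a * (d b * d b) * b +
        a ^ 2 * d a * (d b * d b) * b) := by noncomm_ring
      _ = _ := by rw [hbb]; noncomm_ring
  rw [e2]
  have : b ^ 2 * d b = d b * b ^ 2 := by rw [pow_two, mul_assoc, cb, mul_assoc, cb, mul_assoc]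
  rw [this]

/-- `N n ω`: `ω` is a constant decomposable `n`-form up to an exact form. -/
def NN (n : ℕ) (ω : Om F M) : Prop :=
  ∃ (l : List M) (c : F) (ζ : Om F M), l.length = n ∧
    ω = single 0 (c • (l.map (ι F)).prod) + d ζ

omit [CharP F 3] in
lemma NN_mul {n m : ℕ} {ω ω' : Om F M} (h : NN n ω) (h' : NN m ω') : NN (n + m) (ω * ω') := by
  obtain ⟨l, c, ζ, hl, rfl⟩ := h
  obtain ⟨l', c', ζ', hl', rfl⟩ := h'
  set P : Om F M := single 0 (c • (l.map (ι F)).prod) with hP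
  set P' : Om F M := single 0 (c' • (l'.map (ι F)).prod) with hP'
  refine ⟨l ++ l', c * c', s P * ζ' + ζ * P' + ζ * d ζ', by simp [hl, hl'], ?_⟩
  have hdP : d P = 0 := d_single_zero _
  have hdP' : d P' = 0 := d_single_zero _
  have e : (single 0 ((c * c') • ((l ++ l').map (ι F)).prod) : Om F M) = P * P' := by
    rw [hP, hP', AddMonoidAlgebra.single_mul_single, add_zero]
    congr 1
    rw [List.map_append, List.prod_append, smul_mul_smul_comm]
  rw [e]
  have hdsP : d (s P) = 0 := by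
    have := s_d P
    rw [hdP, map_zero] at this
    exact (neg_eq_zero.mp this.symm)
  rw [map_add, map_add, d_mul, d_mul, d_mul, hdsP, s_s, hdP', d_d]
  noncomm_ring

omit [CharP F 3] in
lemma NN_one : NN 0 (1 : Om F M) :=
  ⟨[], 1, 0, rfl, by simp [AddMonoidAlgebra.one_def]⟩

omit [CharP F 3] in
lemma NN_neg {n : ℕ} {ω : Om F M} (h : NN n ω) : NN n (-ω) := by
  obtain ⟨l, c, ζ, hl, rfl⟩ := h
  exact ⟨l, -c, -ζ, hl, by rw [map_neg, neg_smul, AddMonoidAlgebra.single_neg, neg_add]⟩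

lemma NN_tt {a : Om F M} (ha : s a = a) : NN 1 (tt a) := by
  obtain ⟨w, η, _, h⟩ := (even_main' ha).2
  exact ⟨[w], 1, η, rfl, by simp [tt, h]⟩

omit [CharP F 3] in
lemma s_tt {a : Om F M} (ha : s a = a) : s (tt a) = - tt a := by
  rw [tt, map_mul, map_pow, ha, s_d, ha, mul_neg]

lemma NN_qq {r : ℕ → Om F M} (hr : ∀ i, r i ∈ (A0 : Subalgebra F (Om F M))) (j : ℕ) :
    NN (2 * j) (qq r j) ∧ s (qq r j) = qq r j := by
  induction j with
  | zero => exact ⟨NN_one, by simp [qq]⟩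
  | succ j ih =>
    obtain ⟨a, ha, hra⟩ := hr (2 * j)
    obtain ⟨b, hb, hrb⟩ := hr (2 * j + 1)
    have e : qq r (j + 1) = qq r j * -(tt a * tt b) := by
      rw [qq, hra, hrb, A0_q ha hb]
    rw [e]
    constructor
    · have := NN_mul ih.1 (NN_neg (NN_mul (NN_tt ha) (NN_tt hb)))
      exact this
    · rw [map_mul, ih.2, map_neg, map_mul, s_tt ha, s_tt hb, neg_mul_neg]

lemma qq_central {r : ℕ → Om F M} (hr : ∀ i, r i ∈ (A0 : Subalgebra F (Om F M))) (j : ℕ)
    (x : Om F M) : qq r j * x = x * qq r j :=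
  s_even_comm (NN_qq hr j).2 x

end

end Pool.Agent.Helper4.NotSpecht
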