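import Mathlib

/-! Facts about the grade involution of an exterior algebra over a field of characteristic 3. -/

namespace Pool.Agent.Helper4.NotSpecht

variable {F : Type*} [Field F] {M : Type*} [AddCommGroup M] [Module F M]

/-- A ring in which `3 = 0`: cube of a sum of commuting elements. -/
lemma cube_add {R : Type*} [Ring R] (h3 : (3 : R) = 0) {a b : R} (h : a * b = b * a) :
    (a + b) ^ 3 = a ^ 3 + b ^ 3 := by
  have hc : Commute a b := h
  have := hc.add_pow 3
  rw [this]
  simp [Finset.sum_range_succ, Nat.choose, h3, add_comm]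
  

/-- grade involution -/
noncomputable def sg : ExteriorAlgebra F M →ₐ[F] ExteriorAlgebra F M :=
  CliffordAlgebra.involute

lemma sg_ι (v : M) : sg (ExteriorAlgebra.ι F v) = - ExteriorAlgebra.ι F v :=
  CliffordAlgebra.involute_ι v

lemma sg_sg (g : ExteriorAlgebra F M) : sg (sg g) = g :=
  CliffordAlgebra.involute_involute g

lemma ι_mul (v : M) (g : ExteriorAlgebra F M) :
    ExteriorAlgebra.ι F v * g = sg g * ExteriorAlgebra.ι F v := by
  induction g using ExteriorAlgebra.induction with
  | algebraMap r => rw [AlgHom.commutes]; exact (Algebra.commutes r _).symm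
  | ι x =>
    rw [sg_ι, neg_mul, eq_neg_iff_add_eq_zero]
    exact ExteriorAlgebra.ι_add_mul_swap v x
  | mul a b ha hb => rw [← mul_assoc, ha, mul_assoc, hb, map_mul, mul_assoc]
  | add a b ha hb => rw [mul_add, ha, hb, map_add, add_mul]

lemma even_comm {g : ExteriorAlgebra F M} (hg : sg g = g) (h : ExteriorAlgebra F M) :
    g * h = h * g := by
  induction h using ExteriorAlgebra.induction with
  | algebraMap r => exact (Algebra.commutes r _).symm
  | ι x => rw [ι_mul, hg]
  | mul a b ha hb => rw [← mul_assoc, ha, mul_assoc, hb, mul_assoc]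
  | add a b ha hb => rw [mul_add, ha, hb, add_mul]

lemma odd_swap {g : ExteriorAlgebra F M} (hg : sg g = -g) (h : ExteriorAlgebra F M) :
    g * h = sg h * g := by
  induction h using ExteriorAlgebra.induction with
  | algebraMap r => rw [AlgHom.commutes]; exact (Algebra.commutes r _).symm
  | ι x => rw [sg_ι, neg_mul, ι_mul, hg]; simp
  | mul a b ha hb => rw [← mul_assoc, ha, mul_assoc, hb, map_mul, mul_assoc]
  | add a b ha hb => rw [mul_add, ha, hb, map_add, add_mul]

lemma odd_anti {g h : ExteriorAlgebra F M} (hg : sg g = -g) (hh : sg h = -h) :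
    g * h = -(h * g) := by
  rw [odd_swap hg, hh, neg_mul]

section char3
variable [CharP F 3]

omit [AddCommGroup M] [Module F M] in
lemma three_eq_zero_of_algebra {A : Type*} [Ring A] [Algebra F A] : (3 : A) = 0 := by
  have h : ((3 : ℕ) : F) = 0 := CharP.cast_eq_zero F 3
  have : algebraMap F A ((3 : ℕ) : F) = 0 := by rw [h, map_zero]
  rw [map_natCast] at this
  exact_mod_cast this

lemma eo_eq (g : ExteriorAlgebra F M) : g = -((g + sg g) + (g - sg g)) := by
  have h3 : (3 : ExteriorAlgebra F M) = 0 := three_eq_zero_of_algebra (F := F)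
  have : (3 : ExteriorAlgebra F M) * g = 0 := by rw [h3, zero_mul]
  have h2 : g + g + g = 0 := by rw [← this]; noncomm_ring
  have : g = -(g + g) := by rw [eq_neg_iff_add_eq_zero]; rw [← h2]; abel
  calc g = -(g + g) := this
    _ = _ := by abel

lemma even_cube (g : ExteriorAlgebra F M) :
    ∃ c : F, (g + sg g) ^ 3 = algebraMap F _ c := by
  have h3 : (3 : ExteriorAlgebra F M) = 0 := three_eq_zero_of_algebra (F := F)
  induction g using ExteriorAlgebra.induction with
  | algebraMap r => exact ⟨(r + r) ^ 3, by simp⟩
  | ι x => exact ⟨0, by simp [sg_ι]⟩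
  | mul g h hg hh =>
    obtain ⟨c, hc⟩ := hg
    obtain ⟨c', hc'⟩ := hh
    refine ⟨-(c * c'), ?_⟩
    set e := g + sg g with he
    set e' := h + sg h with he'
    set o := g - sg g with ho
    set o' := h - sg h with ho'
    have hse : sg e = e := by simp [he, sg_sg, add_comm]
    have hse' : sg e' = e' := by simp [he', sg_sg, add_comm]
    have hso : sg o = -o := by simp [ho, sg_sg]
    have hso' : sg o' = -o' := by simp [ho', sg_sg]
    have key : g * h + sg (g * h) = -(e * e' + o * o') := by
      have : (3 : ExteriorAlgebra F M) * (g * h + sg g * sg h) = 0 := by rw [h3, zero_mul]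
      rw [map_mul, eq_neg_iff_add_eq_zero, ← this, he, he', ho, ho']
      noncomm_ring
    have hcomm : (e * e') * (o * o') = (o * o') * (e * e') := by
      apply even_comm
      rw [map_mul, hse, hse']
    have hoo : (o * o') ^ 3 = 0 := by
      have h1 : o * o = 0 := by
        have := odd_anti hso hso
        have h2 : (3 : ExteriorAlgebra F M) * (o * o) = 0 := by rw [h3, zero_mul]
        have h4 : o * o + o * o = 0 := by nth_rw 1 [this]; simp
        calc o * o = 3 * (o * o) - (o * o + o * o) := by noncomm_ring
          _ = 0 := by rw [h2, h4, sub_zero]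
      have h2 : (o * o') * (o * o') = 0 := by
        calc (o * o') * (o * o') = o * (o' * o) * o' := by noncomm_ring
          _ = o * (-(o * o')) * o' := by rw [odd_anti hso' hso]
          _ = -((o * o) * (o' * o')) := by noncomm_ring
          _ = 0 := by rw [h1]; simp
      rw [pow_succ, pow_two, h2, zero_mul]
    rw [key]
    have hee : (e * e') ^ 3 = e ^ 3 * e' ^ 3 := by
      have : Commute e e' := even_comm hse e'
      exact this.mul_pow 3
    have : (-(e * e' + o * o')) ^ 3 = -((e * e' + o * o') ^ 3) := by
      rw [neg_pow]; norm_num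
    rw [this, cube_add h3 hcomm, hoo, add_zero, hee, hc, hc', ← map_mul, map_neg]
  | add g h hg hh =>
    obtain ⟨c, hc⟩ := hg
    obtain ⟨c', hc'⟩ := hh
    refine ⟨c + c', ?_⟩
    have hse : sg (g + sg g) = g + sg g := by simp [sg_sg, add_comm]
    have : g + h + sg (g + h) = (g + sg g) + (h + sg h) := by rw [map_add]; abel
    rw [this, cube_add h3 (even_comm hse _), hc, hc', map_add]

end char3

end Pool.Agent.Helper4.NotSpecht
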