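import Mathlib

/-! Transfer of the identities of matrix algebras through functionals. -/

namespace Pool.Agent.Helper4.NotSpecht

universe u

/-- identities of `M_n(F)`, `F` infinite, hold in `M_n(Q)` for every commutative `F`-algebra `Q`. -/
lemma identity_comm {F : Type u} [Field F] [Infinite F] {n : Type} [Fintype n] [DecidableEq n]
    (f : FreeAlgebra F ℕ) (hf : ∀ φ : ℕ → Matrix n n F, FreeAlgebra.lift F φ f = 0)
    {Q : Type u} [CommRing Q] [Algebra F Q] (φ : ℕ → Matrix n n Q) :
    FreeAlgebra.lift F φ f = 0 := by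
  let Ξ : ℕ → Matrix n n (MvPolynomial (ℕ × n × n) F) :=
    fun i => Matrix.of fun a b => MvPolynomial.X (i, a, b)
  have key : ∀ {S : Type u} [CommRing S] [Algebra F S] (ψ : ℕ → Matrix n n S),
      FreeAlgebra.lift F ψ f =
        (MvPolynomial.aeval (fun p : ℕ × n × n => ψ p.1 p.2.1 p.2.2)).mapMatrix
          (FreeAlgebra.lift F Ξ f) := by
    intro S _ _ ψ
    have : FreeAlgebra.lift F ψ =
        ((MvPolynomial.aeval (fun p : ℕ × n × n => ψ p.1 p.2.1 p.2.2)).mapMatrix).comp
          (FreeAlgebra.lift F Ξ) := by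
      apply FreeAlgebra.hom_ext
      funext i
      ext a b
      simp [Ξ]
    rw [this]; rfl
  have hΞ : FreeAlgebra.lift F Ξ f = 0 := by
    refine Matrix.ext fun a b => ?_
    apply MvPolynomial.funext
    intro v
    have h1 := hf (fun i => Matrix.of fun a b => v (i, a, b))
    rw [key] at h1
    have h2 := congrArg (fun m : Matrix n n F => m a b) h1
    simp only [AlgHom.mapMatrix_apply, Matrix.map_apply, Matrix.zero_apply, Matrix.of_apply] at h2
    rw [Matrix.zero_apply, map_zero, ← h2]
    rfl
  rw [key, hΞ, map_zero]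

/-- The functional `lam` on `A` is visible in `n × n` matrices over a commutative algebra. -/
def Rep {F : Type u} [Field F] (n : Type) [Fintype n] [DecidableEq n] {A : Type u} [Ring A]
    [Algebra F A] (lam : A →ₗ[F] F) : Prop :=
  ∃ (C Q : Type u) (_ : Ring C) (_ : Algebra F C) (_ : CommRing Q) (_ : Algebra F Q)
    (α : C →ₐ[F] A) (β : C →ₐ[F] Matrix n n Q) (μ : Matrix n n Q →ₗ[F] F),
    Function.Surjective α ∧ ∀ c, lam (α c) = μ (β c)

variable {F : Type u} [Field F] {n : Type} [Fintype n] [DecidableEq n] {A : Type u} [Ring A]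
    [Algebra F A] {lam : A →ₗ[F] F}

lemma Rep.identity [Infinite F] (h : Rep n lam) (f : FreeAlgebra F ℕ)
    (hf : ∀ φ : ℕ → Matrix n n F, FreeAlgebra.lift F φ f = 0) (φ : ℕ → A) (N N' : A) :
    lam (N * FreeAlgebra.lift F φ f * N') = 0 := by
  obtain ⟨C, Q, _, _, _, _, α, β, μ, hs, hl⟩ := h
  choose s hs' using hs
  have h1 : FreeAlgebra.lift F φ f = α (FreeAlgebra.lift F (fun i => s (φ i)) f) := by
    have : FreeAlgebra.lift F φ = α.comp (FreeAlgebra.lift F (fun i => s (φ i))) := by
      apply FreeAlgebra.hom_ext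
      funext i
      simp [hs']
    rw [this]; rfl
  have h2 : β (FreeAlgebra.lift F (fun i => s (φ i)) f) = 0 := by
    have : β.comp (FreeAlgebra.lift F (fun i => s (φ i))) =
        FreeAlgebra.lift F (fun i => β (s (φ i))) := by
      apply FreeAlgebra.hom_ext
      funext i
      simp
    have h3 := congrArg (fun g : FreeAlgebra F ℕ →ₐ[F] Matrix n n Q => g f) this
    simp only [AlgHom.comp_apply] at h3
    rw [h3]
    exact identity_comm f hf _
  rw [h1, ← hs' N, ← hs' N', ← map_mul, ← map_mul, hl, map_mul β, map_mul β, h2, mul_zero,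
    zero_mul, map_zero]

/-- monoid algebras -/
lemma Rep.monoidAlgebra (h : Rep n lam) (V : Type u) [AddCommMonoid V]
    (lam' : AddMonoidAlgebra A V →ₗ[F] F) (hlam' : ∀ a, lam' a = lam (a.coeff 0)) :
    Rep n lam' := by
  classical
  obtain ⟨C, Q, _, _, _, _, α, β, μ, hs, hl⟩ := h
  let Q' := AddMonoidAlgebra Q V
  let f0 : C →ₐ[F] Matrix n n Q' :=
    ((AddMonoidAlgebra.singleZeroAlgHom : Q →ₐ[F] Q').mapMatrix).comp β
  let g0 : Multiplicative V →* Matrix n n Q' :=
    (Matrix.scalar n : Q' →+* Matrix n n Q').toMonoidHom.comp (AddMonoidAlgebra.of Q V)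
  have hcomm : ∀ x y, Commute (f0 x) (g0 y) := by
    intro x y
    exact (Matrix.scalar_commute _ (fun r => Commute.all _ _) _).symm
  let c0 : Q' →ₗ[F] Q :=
    { toFun := fun q => q.coeff 0
      map_add' := fun a b => rfl
      map_smul' := fun c a => rfl }
  refine ⟨AddMonoidAlgebra C V, Q', inferInstance, inferInstance, inferInstance, inferInstance,
    AddMonoidAlgebra.mapAlgHom V α, AddMonoidAlgebra.liftNCAlgHom f0 g0 hcomm,
    μ.comp c0.mapMatrix, ?_, ?_⟩
  · exact AddMonoidAlgebra.map_surjective (α : C →+ A) hs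
  · intro c
    rw [hlam']
    induction c using AddMonoidAlgebra.induction_linear with
    | zero => simp
    | add a b ha hb => rw [map_add, map_add, map_add, ← ha, ← hb, AddMonoidAlgebra.coeff_add,
        Finsupp.add_apply, map_add]
    | single v c =>
      rw [AddMonoidAlgebra.mapAlgHom_single, AddMonoidAlgebra.coeff_single]
      have e : AddMonoidAlgebra.liftNCAlgHom f0 g0 hcomm (AddMonoidAlgebra.single v c) =
          f0 c * g0 (Multiplicative.ofAdd v) := by
        exact AddMonoidAlgebra.liftNC_single _ _ _ _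
      have e2 : c0.mapMatrix (f0 c * g0 (Multiplicative.ofAdd v)) = if v = 0 then β c else 0 := by
        ext a b
        have e3 : (f0 c * g0 (Multiplicative.ofAdd v)) a b =
            AddMonoidAlgebra.single v (β c a b) := by
          change (f0 c * Matrix.scalar n (AddMonoidAlgebra.single v (1 : Q))) a b = _
          rw [Matrix.scalar_apply, Matrix.mul_diagonal]
          change AddMonoidAlgebra.single 0 (β c a b) * AddMonoidAlgebra.single v (1 : Q) = _
          rw [AddMonoidAlgebra.single_mul_single, zero_add, mul_one]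
        rw [LinearMap.mapMatrix_apply, Matrix.map_apply, e3]
        change (AddMonoidAlgebra.single v (β c a b)).coeff 0 = _
        rw [AddMonoidAlgebra.coeff_single, Finsupp.single_apply]
        split_ifs <;> rfl
      rw [e, LinearMap.comp_apply, e2, Finsupp.single_apply]
      split_ifs
      · exact hl c
      · simp

/-- `2 × 2` matrices -/
lemma Rep.matrix (h : Rep n lam)
    (lam' : Matrix (Fin 2) (Fin 2) A →ₗ[F] F) (hlam' : ∀ a, lam' a = lam (a 0 0)) :
    Rep (Fin 2 × n) lam' := by
  obtain ⟨C, Q, _, _, _, _, α, β, μ, hs, hl⟩ := h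
  refine ⟨Matrix (Fin 2) (Fin 2) C, Q, inferInstance, inferInstance, inferInstance, inferInstance,
    α.mapMatrix, (Matrix.compAlgEquiv (Fin 2) n Q F).toAlgHom.comp β.mapMatrix,
    μ.comp ((Matrix.entryLinearMap F (Matrix n n Q) (0 : Fin 2) (0 : Fin 2)).comp
      (Matrix.compAlgEquiv (Fin 2) n Q F).symm.toLinearMap), ?_, ?_⟩
  · intro m
    choose s hs' using hs
    exact ⟨m.map s, by ext i j; simp [hs']⟩
  · intro c
    rw [hlam', AlgHom.mapMatrix_apply, Matrix.map_apply, hl]
    simp

/-- polynomials -/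
lemma Rep.polynomial (h : Rep n lam) (N : ℕ)
    (lam' : Polynomial A →ₗ[F] F) (hlam' : ∀ a, lam' a = lam (a.coeff N)) :
    Rep n lam' := by
  obtain ⟨C, Q, _, _, _, _, α, β, μ, hs, hl⟩ := h
  refine ⟨Polynomial C, Polynomial Q, inferInstance, inferInstance, inferInstance, inferInstance,
    Polynomial.mapAlgHom α,
    ((matPolyEquiv (R := Q) (n := n)).symm.toAlgHom.restrictScalars F).comp
      (Polynomial.mapAlgHom β),
    μ.comp (((Polynomial.lcoeff Q N).restrictScalars F).mapMatrix), ?_, ?_⟩
  · exact Polynomial.map_surjective α.toRingHom hs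
  · intro c
    rw [hlam']
    have e1 : (Polynomial.mapAlgHom α c).coeff N = α (c.coeff N) := by
      rw [Polynomial.coe_mapAlgHom]; exact Polynomial.coeff_map _ _
    rw [e1, hl, LinearMap.comp_apply]
    congr 1
    ext i j
    rw [LinearMap.mapMatrix_apply, Matrix.map_apply]
    have := matPolyEquiv_coeff_apply (R := Q) (n := n) (matPolyEquiv.symm (Polynomial.mapAlgHom β c)) N i j
    rw [AlgEquiv.apply_symm_apply] at this
    refine Eq.trans ?_ this
    have e2 : (Polynomial.mapAlgHom β c).coeff N = β (c.coeff N) := by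
      rw [Polynomial.coe_mapAlgHom]; exact Polynomial.coeff_map _ _
    rw [e2]

end Pool.Agent.Helper4.NotSpecht
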