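import Pool.Agent.Helper4.NotSpecht.Conc

/-! The functionals `top_k` on the exterior algebra of `ℕ →₀ F`. -/

namespace Pool.Agent.Helper4.NotSpecht

open MvPolynomial

variable (F : Type*) [Field F]

/-- the vector space -/
abbrev MM := ℕ →₀ F

noncomputable def xl : MM F →ₗ[F] PP F := Finsupp.linearCombination F (fun i => X (i, false))
noncomputable def yl : MM F →ₗ[F] PP F := Finsupp.linearCombination F (fun i => X (i, true))

lemma gg_yl (v : MM F) : gg F (yl F v) = yl F v := by
  rw [yl, Finsupp.linearCombination_apply, Finsupp.sum, map_sum]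
  refine Finset.sum_congr rfl fun i _ => ?_
  rw [map_smul, gg_t]

lemma gg_xl (v : MM F) : gg F (xl F v) = xl F v + yl F v := by
  rw [xl, yl, Finsupp.linearCombination_apply, Finsupp.linearCombination_apply, Finsupp.sum,
    Finsupp.sum, map_sum, ← Finset.sum_add_distrib]
  refine Finset.sum_congr rfl fun i _ => ?_
  rw [map_smul, gg_f, smul_add]

noncomputable def XXl : MM F →ₗ[F] Matrix (Fin 3) (Fin 3) (PP F) where
  toFun v := XX (xl F v) (yl F v)
  map_add' v w := by
    rw [XX, XX, XX, map_add, map_add]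
    ext i j
    fin_cases i <;> fin_cases j <;> simp
    ring
  map_smul' c v := by
    rw [XX, XX, map_smul, map_smul]
    ext i j
    fin_cases i <;> fin_cases j <;> simp

noncomputable def bet : TensorAlgebra F (MM F) →ₐ[F] Matrix (Fin 3) (Fin 3) (PP F) :=
  TensorAlgebra.lift F (XXl F)

lemma bet_ι (v : MM F) : bet F (TensorAlgebra.ι F v) = XX (xl F v) (yl F v) := by
  rw [bet, TensorAlgebra.lift_ι_apply]; rfl

/-- the corner functional composed with `tau`. -/
noncomputable def corn (k : ℕ) : Matrix (Fin 3) (Fin 3) (PP F) →ₗ[F] F :=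
  (tau F k).comp (Matrix.entryLinearMap F (PP F) 0 0)

lemma corn_apply (k : ℕ) (m : Matrix (Fin 3) (Fin 3) (PP F)) : corn F k m = tau F k (m 0 0) := rfl

section
variable [CharP F 3]

lemma gt_bet (t : TensorAlgebra F (MM F)) : gt (gg F) (bet F t) = bet F t := by
  have : (gt (gg F)).comp (bet F) = bet F := by
    apply TensorAlgebra.hom_ext
    refine LinearMap.ext fun v => ?_
    change gt (gg F) (bet F (TensorAlgebra.ι F v)) = bet F (TensorAlgebra.ι F v)
    rw [bet_ι, gt_XX _ (gg_xl F v) (gg_yl F v)]
  exact congrArg (fun f : TensorAlgebra F (MM F) →ₐ[F] _ => f t) this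

lemma corn_gt (k : ℕ) (m : Matrix (Fin 3) (Fin 3) (PP F)) :
    corn F k (gt (gg F) m) = corn F k m := by
  rw [corn_apply, corn_apply, gt_corner, tau_gg]

lemma corn_sq (k : ℕ) (u u' : TensorAlgebra F (MM F)) (v : MM F) :
    corn F k (bet F (u * (TensorAlgebra.ι F v * TensorAlgebra.ι F v) * u')) = 0 := by
  obtain ⟨Y, hY⟩ := gt_norm (gg F) (gg_xl F v) (gg_yl F v)
  have e : bet F (u * (TensorAlgebra.ι F v * TensorAlgebra.ι F v) * u') =
      bet F u * Y * bet F u' + gt (gg F) (bet F u * Y * bet F u') +
        gt (gg F) (gt (gg F) (bet F u * Y * bet F u')) := by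
    simp only [map_mul, bet_ι, hY, gt_bet]
    noncomm_ring
  have h3 : ((3 : ℕ) : F) = 0 := CharP.cast_eq_zero F 3
  rw [e, map_add, map_add, corn_gt, corn_gt, corn_gt]
  have h : ∀ x : F, x + x + x = 0 := by
    intro x
    have : x + x + x = ((3 : ℕ) : F) * x := by push_cast; ring
    rw [this, h3, zero_mul]
  exact h _

/-- the functional `top_k` -/
noncomputable def top (k : ℕ) : ExteriorAlgebra F (MM F) →ₗ[F] F :=
  (exists_top ((corn F k).comp (bet F).toLinearMap) (corn_sq F k)).choose

lemma top_apply (k : ℕ) (t : TensorAlgebra F (MM F)) :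
    top F k (TensorAlgebra.toExterior t) = corn F k (bet F t) :=
  (exists_top ((corn F k).comp (bet F).toLinearMap) (corn_sq F k)).choose_spec t

omit [CharP F 3] in
lemma xl_homog (v : MM F) : (xl F v).IsHomogeneous 1 := by
  rw [xl, Finsupp.linearCombination_apply, Finsupp.sum]
  refine MvPolynomial.IsHomogeneous.sum _ _ _ fun i _ => ?_
  rw [MvPolynomial.smul_eq_C_mul]
  have := (MvPolynomial.isHomogeneous_C (ℕ × Bool) (v i)).mul
    (MvPolynomial.isHomogeneous_X F ((i, false) : ℕ × Bool))
  rwa [zero_add] at this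

omit [CharP F 3] in
lemma yl_homog (v : MM F) : (yl F v).IsHomogeneous 1 := by
  rw [yl, Finsupp.linearCombination_apply, Finsupp.sum]
  refine MvPolynomial.IsHomogeneous.sum _ _ _ fun i _ => ?_
  rw [MvPolynomial.smul_eq_C_mul]
  have := (MvPolynomial.isHomogeneous_C (ℕ × Bool) (v i)).mul
    (MvPolynomial.isHomogeneous_X F ((i, true) : ℕ × Bool))
  rwa [zero_add] at this

omit [CharP F 3] in
lemma bet_homog (l : List (MM F)) : ∀ i j,
    (bet F (l.map (TensorAlgebra.ι F)).prod i j).IsHomogeneous l.length := by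
  induction l with
  | nil =>
    intro i j
    rw [List.map_nil, List.prod_nil, map_one, Matrix.one_apply]
    split_ifs
    · exact MvPolynomial.isHomogeneous_one _ _
    · exact MvPolynomial.isHomogeneous_zero _ _ _
  | cons v l ih =>
    intro i j
    rw [List.map_cons, List.prod_cons, map_mul, Matrix.mul_apply, List.length_cons]
    refine MvPolynomial.IsHomogeneous.sum _ _ _ fun a _ => ?_
    rw [add_comm]
    refine MvPolynomial.IsHomogeneous.mul ?_ (ih a j)
    rw [bet_ι]
    have hx := xl_homog F v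
    have hy := yl_homog F v
    have hz : (0 : PP F).IsHomogeneous 1 := MvPolynomial.isHomogeneous_zero _ _ _
    fin_cases i <;> fin_cases a <;> simp [XX, hx, hy, hz, hx.neg]

omit [CharP F 3] in
lemma toExterior_list (l : List (MM F)) :
    TensorAlgebra.toExterior (l.map (TensorAlgebra.ι F)).prod =
      (l.map (ExteriorAlgebra.ι F)).prod := by
  rw [map_list_prod, List.map_map]
  congr 1
  apply List.map_congr_left
  intro v _
  exact TensorAlgebra.toExterior_ι v

lemma top_short (k : ℕ) (l : List (MM F)) (hl : l.length < 2 * k) :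
    top F k (l.map (ExteriorAlgebra.ι F)).prod = 0 := by
  rw [← toExterior_list, top_apply, corn_apply]
  exact tau_homog F k _ hl _ (bet_homog F l 0 0)

/-- basis vectors -/
noncomputable def ev (i : ℕ) : MM F := Finsupp.single i 1

/-- `e_0 e_1 ... e_{2k-1}` -/
noncomputable def ee : ℕ → ExteriorAlgebra F (MM F)
  | 0 => 1
  | k + 1 => ee k * (ExteriorAlgebra.ι F (ev F (2 * k)) * ExteriorAlgebra.ι F (ev F (2 * k + 1)))

noncomputable def et : ℕ → TensorAlgebra F (MM F)
  | 0 => 1
  | k + 1 => et k * (TensorAlgebra.ι F (ev F (2 * k)) * TensorAlgebra.ι F (ev F (2 * k + 1)))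

omit [CharP F 3] in
lemma toExterior_et (k : ℕ) : TensorAlgebra.toExterior (et F k) = ee F k := by
  induction k with
  | zero => simp [et, ee]
  | succ k ih => rw [et, map_mul, map_mul, ih, TensorAlgebra.toExterior_ι,
      TensorAlgebra.toExterior_ι, ee]

omit [CharP F 3] in
lemma bet_et (k : ℕ) : bet F (et F k) 0 0 = pc F k := by
  induction k with
  | zero => simp [et, pc]
  | succ k ih =>
    have hx : ∀ i, xl F (ev F i) = X (i, false) := by intro i; simp [xl, ev]
    have hy : ∀ i, yl F (ev F i) = X (i, true) := by intro i; simp [yl, ev]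
    rw [et, map_mul, map_mul, bet_ι, bet_ι, Matrix.mul_apply, Fin.sum_univ_three, ih, pc]
    simp only [hx, hy, XX, Matrix.mul_fin_three]
    simp [cc]
    left
    ring

lemma top_ee (k : ℕ) : top F k (ee F k) = 2 ^ k := by
  rw [← toExterior_et, top_apply, corn_apply, bet_et, tau_pc]

end

end Pool.Agent.Helper4.NotSpecht
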