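import Pool.Agent.Helper4.NotSpecht.Block
import Pool.Agent.Helper4.NotSpecht.TopK
import Pool.Agent.Helper4.NotSpecht.Rep

/-! The T-ideals `Id_k`. -/

namespace Pool.Agent.Helper4.NotSpecht

universe u

open AddMonoidAlgebra (single)

variable (F : Type u) [Field F] [CharP F 3]

/-- the functional `ω ↦ top_k (ω_0)` on `Om`. -/
noncomputable def lam1 (k : ℕ) : Om F (MM F) →ₗ[F] F where
  toFun ω := top F k (ω.coeff 0)
  map_add' a b := by rw [AddMonoidAlgebra.coeff_add, Finsupp.add_apply, map_add]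
  map_smul' c a := by rw [AddMonoidAlgebra.coeff_smul_apply, map_smul]; rfl

noncomputable def lam2 (k : ℕ) : Matrix (Fin 2) (Fin 2) (Om F (MM F)) →ₗ[F] F :=
  (lam1 F k).comp (Matrix.entryLinearMap F _ 0 0)

noncomputable def lam3 (k : ℕ) : PM F (MM F) →ₗ[F] F where
  toFun p := lam2 F k (p.coeff 6)
  map_add' a b := by rw [Polynomial.coeff_add, map_add]
  map_smul' c a := by rw [Polynomial.coeff_smul, map_smul]; rfl

lemma lam3_apply (k : ℕ) (p : PM F (MM F)) :
    lam3 F k p = top F k ((p.coeff 6 0 0).coeff 0) := rfl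

lemma rep_top (k : ℕ) : Rep (Fin 3) (top F k) := by
  refine ⟨TensorAlgebra F (MM F), PP F, inferInstance, inferInstance, inferInstance, inferInstance,
    TensorAlgebra.toExterior, bet F, corn F k, ?_, top_apply F k⟩
  intro g
  induction g using ExteriorAlgebra.induction with
  | algebraMap r => exact ⟨algebraMap F _ r, AlgHom.commutes _ _⟩
  | ι x => exact ⟨TensorAlgebra.ι F x, TensorAlgebra.toExterior_ι x⟩
  | mul a b ha hb =>
    obtain ⟨a', rfl⟩ := ha
    obtain ⟨b', rfl⟩ := hb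
    exact ⟨a' * b', map_mul _ _ _⟩
  | add a b ha hb =>
    obtain ⟨a', rfl⟩ := ha
    obtain ⟨b', rfl⟩ := hb
    exact ⟨a' + b', map_add _ _ _⟩

lemma rep_lam3 (k : ℕ) : Rep (Fin 2 × Fin 3) (lam3 F k) := by
  have h1 : Rep (Fin 3) (lam1 F k) :=
    (rep_top F k).monoidAlgebra (MM F) (lam1 F k) (fun a => rfl)
  have h2 : Rep (Fin 2 × Fin 3) (lam2 F k) := h1.matrix (lam2 F k) (fun a => rfl)
  exact h2.polynomial 6 (lam3 F k) (fun a => rfl)

/-- The T-ideal of index `k`. -/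
def Idk (k : ℕ) : Set (FreeAlgebra F ℕ) :=
  {f | ∀ (φ : ℕ → BB F (MM F)) (N N' : BB F (MM F)),
    lam3 F k ((N * FreeAlgebra.lift F φ f * N' : BB F (MM F)) : PM F (MM F)) = 0}

variable {F}

lemma Idk_zero (k : ℕ) : (0 : FreeAlgebra F ℕ) ∈ Idk F k := by
  intro φ N N'
  rw [map_zero, mul_zero, zero_mul]
  exact map_zero _

lemma Idk_add {k : ℕ} {f g : FreeAlgebra F ℕ} (hf : f ∈ Idk F k) (hg : g ∈ Idk F k) :
    f + g ∈ Idk F k := by
  intro φ N N'
  rw [map_add, mul_add, add_mul]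
  have := congrArg₂ (· + ·) (hf φ N N') (hg φ N N')
  simp only [add_zero] at this
  rw [← this, ← map_add]
  rfl

lemma Idk_mul_left {k : ℕ} {f : FreeAlgebra F ℕ} (g : FreeAlgebra F ℕ) (hf : f ∈ Idk F k) :
    g * f ∈ Idk F k := by
  intro φ N N'
  rw [map_mul, ← mul_assoc]
  exact hf φ _ N'

lemma Idk_mul_right {k : ℕ} {f : FreeAlgebra F ℕ} (g : FreeAlgebra F ℕ) (hf : f ∈ Idk F k) :
    f * g ∈ Idk F k := by
  intro φ N N'
  rw [map_mul, ← mul_assoc, mul_assoc]
  exact hf φ N _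

lemma Idk_smul {k : ℕ} {f : FreeAlgebra F ℕ} (c : F) (hf : f ∈ Idk F k) :
    c • f ∈ Idk F k := by
  rw [Algebra.smul_def]; exact Idk_mul_left _ hf

lemma Idk_neg {k : ℕ} {f : FreeAlgebra F ℕ} (hf : f ∈ Idk F k) : -f ∈ Idk F k := by
  have := Idk_smul (-1 : F) hf
  rwa [neg_smul, one_smul] at this

lemma Idk_endo {k : ℕ} {f : FreeAlgebra F ℕ} (ψ : FreeAlgebra F ℕ →ₐ[F] FreeAlgebra F ℕ)
    (hf : f ∈ Idk F k) : ψ f ∈ Idk F k := by
  intro φ N N'
  have : FreeAlgebra.lift F φ (ψ f) =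
      FreeAlgebra.lift F (fun i => FreeAlgebra.lift F φ (ψ (FreeAlgebra.ι F i))) f := by
    have h : (FreeAlgebra.lift F φ).comp ψ =
        FreeAlgebra.lift F (fun i => FreeAlgebra.lift F φ (ψ (FreeAlgebra.ι F i))) := by
      apply FreeAlgebra.hom_ext
      funext i
      simp
    rw [← h]; rfl
  rw [this]
  exact hf _ N N'

/-- identities of `M_6(F)` lie in every `Idk`. -/
lemma Idk_matrix [Infinite F] (k : ℕ) (f : FreeAlgebra F ℕ)
    (hf : ∀ φ : ℕ → Matrix (Fin 2 × Fin 3) (Fin 2 × Fin 3) F, FreeAlgebra.lift F φ f = 0) :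
    f ∈ Idk F k := by
  intro φ N N'
  have h := (rep_lam3 F k).identity f hf (fun i => (φ i : PM F (MM F))) N N'
  have e : ((FreeAlgebra.lift F φ f : BB F (MM F)) : PM F (MM F)) =
      FreeAlgebra.lift F (fun i => (φ i : PM F (MM F))) f := by
    have : ((BB F (MM F)).val).comp (FreeAlgebra.lift F φ) =
        FreeAlgebra.lift F (fun i => (φ i : PM F (MM F))) := by
      apply FreeAlgebra.hom_ext
      funext i
      simp
    rw [← this]; rfl
  rw [← e] at h
  exact h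

variable (F) in
/-- the polynomials `w_k`. -/
noncomputable def wk (k : ℕ) : FreeAlgebra F ℕ :=
  ww (FreeAlgebra.ι F 1) (FreeAlgebra.ι F 0) (fun i => FreeAlgebra.ι F (i + 2)) k

omit [CharP F 3] in
lemma lift_wk {A : Type*} [Ring A] [Algebra F A] (φ : ℕ → A) (k : ℕ) :
    FreeAlgebra.lift F φ (wk F k) = ww (φ 1) (φ 0) (fun i => φ (i + 2)) k := by
  have := map_ww (FreeAlgebra.lift F φ).toRingHom (FreeAlgebra.ι F 1) (FreeAlgebra.ι F 0)
    (fun i => FreeAlgebra.ι F (i + 2)) k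
  rw [wk]
  refine this.trans ?_
  simp

/-- the value of the functional on `N w_j N'`. -/
lemma lam3_ww (k : ℕ) {z y N N' : PM F (MM F)} {x : ℕ → PM F (MM F)} (hz : z ∈ BB F (MM F))
    (hy : y ∈ BB F (MM F)) (hN : N ∈ BB F (MM F)) (hN' : N' ∈ BB F (MM F))
    (hx : ∀ i, x i ∈ BB F (MM F)) {j : ℕ} (hj : 0 < j) :
    ∃ c : F, lam3 F k (N * ww z y x j * N') =
      c * top F k ((qq (fun i => (x i).coeff 0 1 1) j).coeff 0) := by
  obtain ⟨a, ha⟩ := hN.2.2
  obtain ⟨a', ha'⟩ := hN'.2.2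
  have hZ : z * y ^ 3 - y ^ 3 * z ∈ BB F (MM F) :=
    sub_mem (mul_mem hz (pow_mem hy 3)) (mul_mem (pow_mem hy 3) hz)
  obtain ⟨l, hl⟩ := A0_cube (mul_mem (hZ.1 1 0 1) (hZ.1 1 1 0))
  refine ⟨a * l * a', ?_⟩
  have e : algebraMap F (Om F (MM F)) a * algebraMap F _ l *
      qq (fun i => (x i).coeff 0 1 1) j * algebraMap F _ a' =
      (a * l * a') • qq (fun i => (x i).coeff 0 1 1) j := by
    rw [← Algebra.commutes a', ← map_mul, ← mul_assoc, ← map_mul, ← Algebra.smul_def]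
    congr 1; ring
  rw [lam3_apply, BB_ww hz hy hN hN' hx hj, hl, ha, ha', e, AddMonoidAlgebra.coeff_smul_apply,
    map_smul, smul_eq_mul]

lemma top_qq_short (k j : ℕ) (hj : j < k) {r : ℕ → Om F (MM F)}
    (hr : ∀ i, r i ∈ (A0 : Subalgebra F (Om F (MM F)))) :
    top F k ((qq r j).coeff 0) = 0 := by
  obtain ⟨l, c, ζ, hl, h⟩ := (NN_qq hr j).1
  rw [h, AddMonoidAlgebra.coeff_add, Finsupp.add_apply, d_coeff_zero, add_zero,
    AddMonoidAlgebra.coeff_single, Finsupp.single_eq_same, map_smul, top_short F k l (by omega),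
    smul_zero]

lemma wk_mem {j k : ℕ} (hj : 0 < j) (hjk : j < k) : wk F j ∈ Idk F k := by
  intro φ N N'
  have e : ((N * FreeAlgebra.lift F φ (wk F j) * N' : BB F (MM F)) : PM F (MM F)) =
      (N : PM F (MM F)) * ww (φ 1 : PM F (MM F)) (φ 0 : PM F (MM F))
        (fun i => (φ (i + 2) : PM F (MM F))) j * (N' : PM F (MM F)) := by
    have h0 : FreeAlgebra.lift F φ (wk F j) = ww (φ 1) (φ 0) (fun i => φ (i + 2)) j :=
      lift_wk φ j
    rw [h0]
    have := map_ww (BB F (MM F)).val.toRingHom (φ 1) (φ 0) (fun i => φ (i + 2)) j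
    exact congrArg (fun x : PM F (MM F) => (N : PM F (MM F)) * x * (N' : PM F (MM F))) this
  rw [e]
  obtain ⟨c, hc⟩ := lam3_ww k (φ 1).2 (φ 0).2 N.2 N'.2 (fun i => (φ (i + 2)).2) hj
  rw [hc, top_qq_short k j hjk (fun i => (φ (i + 2)).2.1 0 1 1), mul_zero]

/-- the generators of the Fedosov algebra -/
noncomputable def uu (i : ℕ) : Om F (MM F) :=
  single (ev F i) 1 + d (single (ev F i) 1)

omit [CharP F 3] in
lemma s_uu (i : ℕ) : s (single (ev F i) 1 : Om F (MM F)) = single (ev F i) 1 := by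
  rw [s_single, map_one]

lemma uu_mem (i : ℕ) : (uu i : Om F (MM F)) ∈ (A0 : Subalgebra F (Om F (MM F))) :=
  ⟨_, s_uu i, rfl⟩

lemma tt_uu (i : ℕ) : tt (single (ev F i) 1 : Om F (MM F)) =
    single 0 (ExteriorAlgebra.ι F (ev F i)) := by
  rw [tt, d_single, pow_two, AddMonoidAlgebra.single_mul_single,
    AddMonoidAlgebra.single_mul_single, three_smul_eq_zero F, one_mul, one_mul, mul_one]

lemma qq_uu (k : ℕ) : qq (uu : ℕ → Om F (MM F)) k = single 0 ((-1 : F) ^ k • ee F k) := by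
  induction k with
  | zero => simp [qq, ee, AddMonoidAlgebra.one_def]
  | succ k ih =>
    have h := A0_q (F := F) (s_uu (F := F) (2 * k)) (s_uu (F := F) (2 * k + 1))
    rw [qq]
    change qq uu k * ((single (ev F (2 * k)) 1 + d (single (ev F (2 * k)) 1)) ^ 2 *
      ((single (ev F (2 * k)) 1 + d (single (ev F (2 * k)) 1)) *
      (single (ev F (2 * k + 1)) 1 + d (single (ev F (2 * k + 1)) 1)) -
      (single (ev F (2 * k + 1)) 1 + d (single (ev F (2 * k + 1)) 1)) *
      (single (ev F (2 * k)) 1 + d (single (ev F (2 * k)) 1))) *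
      (single (ev F (2 * k + 1)) 1 + d (single (ev F (2 * k + 1)) 1)) ^ 2) = _
    rw [h, ih, tt_uu, tt_uu, AddMonoidAlgebra.single_mul_single, ← AddMonoidAlgebra.single_neg,
      AddMonoidAlgebra.single_mul_single, add_zero, add_zero, ee, pow_succ, mul_neg, mul_neg_one,
      neg_smul, smul_mul_assoc]

/-- the special substitution -/
noncomputable def zz : PM F (MM F) := Polynomial.C !![0, 1; 1, 0] * Polynomial.X
noncomputable def yy : PM F (MM F) := Polynomial.C !![1, 0; 0, 0]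
noncomputable def xx (i : ℕ) : PM F (MM F) := Polynomial.C !![0, 0; 0, uu i]

lemma zz_mem : (zz : PM F (MM F)) ∈ BB F (MM F) := by
  have h0 : ∀ i, (zz : PM F (MM F)).coeff i = if i = 1 then !![0, 1; 1, 0] else 0 := by
    intro i
    rw [zz, Polynomial.coeff_C_mul_X]
  refine ⟨fun i a b => ?_, fun i a b h => ?_, 0, ?_⟩
  · rw [h0]
    split_ifs
    · fin_cases a <;> fin_cases b <;> simp [zero_mem, one_mem]
    · exact zero_mem _
  · rw [h0]
    split_ifs with h1
    · subst h1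
      fin_cases a <;> fin_cases b <;> simp at h ⊢
    · rfl
  · rw [h0]; simp

lemma const_mem {a b : Om F (MM F)} (c : F) (ha : a = algebraMap F _ c)
    (hb : b ∈ (A0 : Subalgebra F (Om F (MM F)))) :
    (Polynomial.C !![a, 0; 0, b] : PM F (MM F)) ∈ BB F (MM F) := by
  have h0 : ∀ i, (Polynomial.C !![a, 0; 0, b] : PM F (MM F)).coeff i =
      if i = 0 then !![a, 0; 0, b] else 0 := by
    intro i
    rw [Polynomial.coeff_C]
  have haa : a ∈ (A0 : Subalgebra F (Om F (MM F))) := by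
    rw [ha]; exact Subalgebra.algebraMap_mem _ _
  refine ⟨fun i a' b' => ?_, fun i a' b' h => ?_, c, ?_⟩
  · rw [h0]
    split_ifs
    · fin_cases a' <;> fin_cases b' <;> simp [zero_mem, haa, hb]
    · exact zero_mem _
  · rw [h0]
    split_ifs with h1
    · subst h1
      fin_cases a' <;> fin_cases b' <;> simp at h ⊢
    · rfl
  · rw [h0]; simp [ha]

lemma yy_mem : (yy : PM F (MM F)) ∈ BB F (MM F) :=
  const_mem 1 (by rw [map_one]) (zero_mem _)

lemma xx_mem (i : ℕ) : (xx i : PM F (MM F)) ∈ BB F (MM F) :=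
  const_mem 0 (by rw [map_zero]) (uu_mem i)

lemma lam3_special (k : ℕ) (hk : 0 < k) :
    lam3 F k (ww zz yy xx k) ≠ 0 := by
  have h := BB_ww (zz_mem (F := F)) yy_mem (one_mem _) (one_mem _) xx_mem hk
  have h3 : ((3 : ℕ) : F) = 0 := CharP.cast_eq_zero F 3
  have h2 : (2 : F) ≠ 0 := by
    intro h2
    have h1 : (1 : F) = 0 := by
      calc (1 : F) = ((3 : ℕ) : F) - 2 := by push_cast; norm_num
        _ = 0 := by rw [h3, h2, sub_zero]
    exact one_ne_zero h1
  have hy3 : (yy : PM F (MM F)) ^ 3 = yy := by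
    have h4 : (!![1, 0; 0, 0] : Matrix (Fin 2) (Fin 2) (Om F (MM F))) ^ 3 = !![1, 0; 0, 0] := by
      simp only [pow_succ, pow_zero, one_mul, Matrix.mul_fin_two, mul_one, mul_zero, add_zero,
        zero_mul]
    rw [yy, ← Polynomial.C_pow, h4]
  have hZ : (zz * yy ^ 3 - yy ^ 3 * zz : PM F (MM F)) =
      Polynomial.C !![0, -1; 1, 0] * Polynomial.X := by
    rw [hy3, zz, yy, mul_assoc, Polynomial.X_mul, ← mul_assoc, ← mul_assoc, ← sub_mul,
      ← Polynomial.C_mul, ← Polynomial.C_mul, ← Polynomial.C_sub]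
    congr 2
    rw [Matrix.mul_fin_two, Matrix.mul_fin_two]
    ext i j
    fin_cases i <;> fin_cases j <;> simp
  have hZ1 : (zz * yy ^ 3 - yy ^ 3 * zz : PM F (MM F)).coeff 1 = !![0, -1; 1, 0] := by
    rw [hZ, Polynomial.coeff_C_mul_X, if_pos rfl]
  have hx : (fun i => (xx i : PM F (MM F)).coeff 0 1 1) = uu := by
    funext i
    rw [xx, Polynomial.coeff_C_zero]; simp
  rw [one_mul, mul_one, hZ1, hx, qq_uu, Polynomial.coeff_one_zero] at h
  rw [lam3_apply, h]
  simp only [Matrix.one_apply_eq, Matrix.of_apply, Matrix.cons_val_zero, Matrix.cons_val_one,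
    Matrix.cons_val', Matrix.cons_val_fin_one, one_mul, mul_one]
  have e : ((-1 : Om F (MM F)) ^ 3) = algebraMap F _ (-1) := by
    rw [map_neg, map_one]; norm_num
  rw [e, ← Algebra.smul_def, AddMonoidAlgebra.coeff_smul_apply, AddMonoidAlgebra.coeff_single,
    Finsupp.single_eq_same, map_smul, map_smul, top_ee]
  simp [h2]

lemma wk_not_mem (k : ℕ) (hk : 0 < k) : wk F k ∉ Idk F k := by
  intro h
  let φ : ℕ → BB F (MM F) := fun i =>
    match i with
    | 0 => ⟨yy, yy_mem⟩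
    | 1 => ⟨zz, zz_mem⟩
    | i + 2 => ⟨xx i, xx_mem i⟩
  have h1 := h φ 1 1
  have h0 : FreeAlgebra.lift F φ (wk F k) = ww (φ 1) (φ 0) (fun i => φ (i + 2)) k :=
    lift_wk φ k
  rw [one_mul, mul_one, h0] at h1
  have := map_ww (BB F (MM F)).val.toRingHom (φ 1) (φ 0) (fun i => φ (i + 2)) k
  have e : ((ww (φ 1) (φ 0) (fun i => φ (i + 2)) k : BB F (MM F)) : PM F (MM F)) =
    ww zz yy xx k := this
  rw [e] at h1
  exact lam3_special k hk h1

/-- elements of `Idk` have no constant term. -/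
lemma Idk_const {k : ℕ} (hk : 0 < k) {f : FreeAlgebra F ℕ} (hf : f ∈ Idk F k) :
    FreeAlgebra.lift F (fun _ => (0 : F)) f = 0 := by
  set c := FreeAlgebra.lift F (fun _ => (0 : F)) f with hc
  have e : FreeAlgebra.lift F (fun _ => (0 : BB F (MM F))) f = algebraMap F _ c := by
    have : (Algebra.ofId F (BB F (MM F))).comp (FreeAlgebra.lift F (fun _ : ℕ => (0 : F))) =
        FreeAlgebra.lift F (fun _ : ℕ => (0 : BB F (MM F))) := by
      apply FreeAlgebra.hom_ext
      funext i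
      simp
    rw [← this]; rfl
  by_contra hne
  apply wk_not_mem (F := F) k hk
  intro φ N N'
  have h1 := hf (fun _ => 0) (N * FreeAlgebra.lift F φ (wk F k)) N'
  rw [e, ← Algebra.commutes, ← Algebra.smul_def, smul_mul_assoc] at h1
  have h2 : c • lam3 F k ((N * FreeAlgebra.lift F φ (wk F k) * N' : BB F (MM F)) : PM F (MM F)) = 0 := by
    rw [← map_smul]; exact h1
  rcases smul_eq_zero.mp h2 with h3 | h3
  · exact absurd h3 hne
  · exact h3

end Pool.Agent.Helper4.NotSpecht
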