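import Pool.Agent.Helper4.NotSpecht.Grass

/-! The algebra of `M`-graded forms with its differential, and the Fedosov subalgebra. -/

namespace Pool.Agent.Helper4.NotSpecht

open ExteriorAlgebra

variable {F : Type*} [Field F] {M : Type*} [AddCommGroup M] [Module F M]

variable (F M) in
/-- group algebra of `M` with coefficients in the exterior algebra of `M`. -/
abbrev Om := AddMonoidAlgebra (ExteriorAlgebra F M) M

open AddMonoidAlgebra (single)

/-- grade involution on `Om`. -/
noncomputable def s : Om F M →ₐ[F] Om F M := AddMonoidAlgebra.mapAlgHom M sg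

lemma s_single (v : M) (g : ExteriorAlgebra F M) : s (single v g) = single v (sg g) := by
  simp [s]

lemma s_s (a : Om F M) : s (s a) = a := by
  induction a using AddMonoidAlgebra.induction_linear with
  | zero => simp
  | add f g hf hg => rw [map_add, map_add, hf, hg]
  | single v g => rw [s_single, s_single, sg_sg]

/-- the differential. -/
noncomputable def d : Om F M →+ Om F M :=
  (Finsupp.liftAddHom fun v : M =>
    ((AddMonoidAlgebra.singleAddHom v).comp
      (AddMonoidHom.mulLeft (ι F v : ExteriorAlgebra F M)))).comp
    (AddMonoidAlgebra.coeffAddEquiv.toAddMonoidHom)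

lemma d_single (v : M) (g : ExteriorAlgebra F M) :
    d (single v g) = single v (ι F v * g) := by
  change (Finsupp.liftAddHom fun v : M =>
    ((AddMonoidAlgebra.singleAddHom v).comp
      (AddMonoidHom.mulLeft (ι F v : ExteriorAlgebra F M))))
        ((single v g : Om F M).coeff) = _
  rw [AddMonoidAlgebra.coeff_single, Finsupp.liftAddHom_apply_single]
  rfl

lemma d_single_zero (g : ExteriorAlgebra F M) : d (single (0 : M) g) = 0 := by
  rw [d_single]; simp

lemma d_coeff_zero (a : Om F M) : (d a).coeff 0 = 0 := by
  classical
  induction a using AddMonoidAlgebra.induction_linear with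
  | zero => simp
  | add f g hf hg => rw [map_add, AddMonoidAlgebra.coeff_add, Finsupp.add_apply, hf, hg, add_zero]
  | single v g =>
    rw [d_single, AddMonoidAlgebra.coeff_single, Finsupp.single_apply]
    split_ifs with h
    · subst h; simp
    · rfl

lemma d_mul (a b : Om F M) : d (a * b) = d a * b + s a * d b := by
  induction a using AddMonoidAlgebra.induction_linear with
  | zero => simp
  | add f g hf hg => simp only [add_mul, map_add, hf, hg]; abel
  | single v g =>
    induction b using AddMonoidAlgebra.induction_linear with
    | zero => simp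
    | add f' g' hf hg => simp only [mul_add, map_add, hf, hg]; abel
    | single w h =>
      rw [AddMonoidAlgebra.single_mul_single, d_single, d_single, d_single, s_single,
        AddMonoidAlgebra.single_mul_single, AddMonoidAlgebra.single_mul_single,
        ← AddMonoidAlgebra.single_add]
      congr 1
      rw [map_add, add_mul, ← mul_assoc, ← mul_assoc, ι_mul w g, mul_assoc (sg g)]

lemma d_d (a : Om F M) : d (d a) = 0 := by
  induction a using AddMonoidAlgebra.induction_linear with
  | zero => simp
  | add f g hf hg => simp only [map_add, hf, hg, add_zero]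
  | single v g =>
    rw [d_single, d_single, ← mul_assoc, ι_sq_zero, zero_mul, AddMonoidAlgebra.single_zero]

lemma s_d (a : Om F M) : s (d a) = - d (s a) := by
  induction a using AddMonoidAlgebra.induction_linear with
  | zero => simp
  | add f g hf hg => simp only [map_add, hf, hg]; abel
  | single v g =>
    rw [d_single, s_single, s_single, d_single, map_mul, sg_ι, neg_mul,
      AddMonoidAlgebra.single_neg]

lemma d_algebraMap (c : F) : d (algebraMap F (Om F M) c) = 0 := by
  have : algebraMap F (Om F M) c = single 0 (algebraMap F _ c) := by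
    rw [AddMonoidAlgebra.coe_algebraMap]; rfl
  rw [this, d_single_zero]

/-- evenness: `a + s a` commutes with everything -/
lemma even_comm_aux (a b : Om F M) : (a + s a) * b = b * (a + s a) := by
  induction a using AddMonoidAlgebra.induction_linear with
  | zero => simp
  | add f g hf hg =>
    rw [map_add, show f + g + (s f + s g) = (f + s f) + (g + s g) by abel, add_mul, hf, hg,
      ← mul_add]
  | single v g =>
    induction b using AddMonoidAlgebra.induction_linear with
    | zero => simp
    | add f' g' hf hg => rw [mul_add, hf, hg, add_mul]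
    | single w h =>
      rw [s_single, ← AddMonoidAlgebra.single_add, AddMonoidAlgebra.single_mul_single,
        AddMonoidAlgebra.single_mul_single, add_comm v w, even_comm]
      rw [map_add, sg_sg, add_comm]

lemma odd_anti_aux (a b : Om F M) : (a - s a) * (b - s b) = -((b - s b) * (a - s a)) := by
  induction a using AddMonoidAlgebra.induction_linear with
  | zero => simp
  | add f g hf hg =>
    rw [map_add, show f + g - (s f + s g) = (f - s f) + (g - s g) by abel, add_mul, hf, hg, mul_add]
    abel
  | single v g =>
    induction b using AddMonoidAlgebra.induction_linear with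
    | zero => simp
    | add f' g' hf hg =>
      rw [map_add, show f' + g' - (s f' + s g') = (f' - s f') + (g' - s g') by abel,
        mul_add, hf, hg, add_mul]
      abel
    | single w h =>
      rw [s_single, s_single, ← AddMonoidAlgebra.single_sub, ← AddMonoidAlgebra.single_sub,
        AddMonoidAlgebra.single_mul_single,
        AddMonoidAlgebra.single_mul_single, add_comm v w, odd_anti, AddMonoidAlgebra.single_neg]
      · rw [map_sub, sg_sg]; abel
      · rw [map_sub, sg_sg]; abel

section char3
variable [CharP F 3]

omit [AddCommGroup M] [Module F M] in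
variable (F) in
lemma eq_neg_double {A : Type*} [Ring A] [Algebra F A] (a : A) : a = -(a + a) := by
  have h3 : (3 : A) = 0 := three_eq_zero_of_algebra (F := F)
  have : (3 : A) * a = 0 := by rw [h3, zero_mul]
  rw [eq_neg_iff_add_eq_zero, ← this]; noncomm_ring

lemma s_even_comm {a : Om F M} (ha : s a = a) (b : Om F M) : a * b = b * a := by
  have h := even_comm_aux a b
  rw [ha] at h
  rw [eq_neg_double F a, neg_mul, h, mul_neg]

lemma s_odd_anti {a b : Om F M} (ha : s a = -a) (hb : s b = -b) : a * b = -(b * a) := by
  have h := odd_anti_aux a b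
  rw [ha, hb, sub_neg_eq_add, sub_neg_eq_add] at h
  rw [eq_neg_double F a, eq_neg_double F b]
  simp only [neg_mul, mul_neg, neg_neg]
  exact h

lemma s_odd_sq {a : Om F M} (ha : s a = -a) : a * a = 0 := by
  have h := s_odd_anti ha ha
  have h2 : a * a + a * a = 0 := by nth_rw 1 [h]; simp
  rw [eq_neg_double F (a * a), h2, neg_zero]

omit [AddCommGroup M] [Module F M] [CharP F 3] in
lemma three_smul_eq_zero (F : Type*) [Field F] [CharP F 3] {M : Type*} [AddCommGroup M]
    [Module F M] (v : M) : v + v + v = 0 := by
  have h : ((3 : ℕ) : F) = 0 := CharP.cast_eq_zero F 3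
  have h2 : ((3 : ℕ) : F) • v = 0 := by rw [h, zero_smul]
  have h3 : ((3 : ℕ) : F) = 1 + 1 + 1 := by norm_num
  rw [h3, add_smul, add_smul, one_smul] at h2
  exact h2

/-- The main structural fact: for an even element `a = ω + s ω`, the cube is a scalar and
`a² da` is a constant `1`-form up to an exact form. -/
lemma even_main (ω : Om F M) :
    (∃ c : F, (ω + s ω) ^ 3 = algebraMap F _ c) ∧
    ∃ (w : M) (η : Om F M), s η = η ∧
      (ω + s ω) ^ 2 * d (ω + s ω) = single 0 (ι F w) + d η := by
  have h3 : (3 : Om F M) = 0 := three_eq_zero_of_algebra (F := F)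
  induction ω using AddMonoidAlgebra.induction_linear with
  | zero => exact ⟨⟨0, by simp⟩, ⟨0, 0, by simp, by simp⟩⟩
  | add f g hf hg =>
    obtain ⟨⟨c, hc⟩, ⟨w, η, hη, hw⟩⟩ := hf
    obtain ⟨⟨c', hc'⟩, ⟨w', η', hη', hw'⟩⟩ := hg
    set a := f + s f with ha
    set b := g + s g with hb
    have hsa : s a = a := by rw [ha, map_add, s_s, add_comm]
    have hsb : s b = b := by rw [hb, map_add, s_s, add_comm]
    have hab : f + g + s (f + g) = a + b := by rw [map_add]; simp only [ha, hb]; abel
    rw [hab]
    clear_value a b
    refine ⟨⟨c + c', ?_⟩, ⟨w + w', η + η' + (a ^ 2 * b + a * b ^ 2), ?_, ?_⟩⟩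
    · rw [cube_add h3 (s_even_comm hsa _), hc, hc', map_add]
    · simp only [map_add, map_mul, map_pow, hη, hη', hsa, hsb]
    · rw [map_add (ι F), AddMonoidAlgebra.single_add]
      have e1 : d (a ^ 2 * b + a * b ^ 2) =
          a * d a * b + a * d a * b + a ^ 2 * d b + (d a * b ^ 2 + a * (b * d b + b * d b)) := by
        have h1 : d (a ^ 2) = a * d a + a * d a := by
          rw [pow_two, d_mul, hsa, ← s_even_comm hsa (d a)]
        have h2 : d (b ^ 2) = b * d b + b * d b := by
          rw [pow_two, d_mul, hsb, ← s_even_comm hsb (d b)]
        rw [map_add, d_mul, d_mul, h1, h2, map_pow, hsa]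
        noncomm_ring
      rw [map_add d (η + η'), map_add d η, e1]
      have e2 : (a + b) ^ 2 * d (a + b) = a ^ 2 * d a + b ^ 2 * d b +
          (a * d a * b + a * d a * b + a ^ 2 * d b + (d a * b ^ 2 + a * (b * d b + b * d b))) := by
        have hba : ∀ x, b * x = x * b := fun x => s_even_comm hsb x
        have hbb : b ^ 2 * d a = d a * b ^ 2 := by
          rw [pow_two, mul_assoc, hba (d a), ← mul_assoc, hba (d a), mul_assoc]
        have hadb : a * b * d a = a * d a * b := by rw [mul_assoc, hba, mul_assoc]
        have hadb' : b * a * d a = a * d a * b := by rw [mul_assoc, hba]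
        have hbad : b * a * d b = a * (b * d b) := by rw [← mul_assoc, hba a]
        calc (a + b) ^ 2 * d (a + b)
            = a ^ 2 * d a + a * b * d a + b * a * d a + b ^ 2 * d a
              + a ^ 2 * d b + a * (b * d b) + b * a * d b + b ^ 2 * d b := by
              rw [map_add]; noncomm_ring
          _ = _ := by rw [hadb, hadb', hbb, hbad]; noncomm_ring
      rw [e2, hw, hw']
      abel
  | single v g =>
    obtain ⟨c, hc⟩ := even_cube g
    set e := g + sg g with he
    have hs : single v g + s (single v g) = (single v e : Om F M) := by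
      rw [s_single, he, AddMonoidAlgebra.single_add]
    have hse : sg e = e := by simp [he, sg_sg, add_comm]
    have hv : v + v + v = 0 := three_smul_eq_zero F v
    refine ⟨⟨c, ?_⟩, ⟨c • v, 0, by simp, ?_⟩⟩
    · rw [hs, pow_succ, pow_two, AddMonoidAlgebra.single_mul_single,
        AddMonoidAlgebra.single_mul_single, hv]
      rw [AddMonoidAlgebra.coe_algebraMap]
      have : e * e * e = algebraMap F _ c := by rw [← hc, pow_succ, pow_two]
      rw [this]; rfl
    · rw [hs, pow_two, d_single, AddMonoidAlgebra.single_mul_single,
        AddMonoidAlgebra.single_mul_single, hv, map_zero, add_zero]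
      congr 1
      have : e * e * e = algebraMap F _ c := by rw [← hc, pow_succ, pow_two]
      calc e * e * (ι F v * e) = e * e * (e * ι F v) := by rw [even_comm hse (ι F v)]
        _ = (e * e * e) * ι F v := by noncomm_ring
        _ = _ := by rw [this, map_smul, Algebra.smul_def]

lemma even_main' {a : Om F M} (ha : s a = a) :
    (∃ c : F, a ^ 3 = algebraMap F _ c) ∧
    ∃ (w : M) (η : Om F M), s η = η ∧ a ^ 2 * d a = single 0 (ι F w) + d η := by
  have h := even_main (F := F) (-a)
  have e : -a + s (-a) = a := by
    rw [map_neg, ha, ← neg_add]; exact (eq_neg_double F a).symm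
  rwa [e] at h

end char3

end Pool.Agent.Helper4.NotSpecht
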