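import Mathlib

/-! A functional on the exterior algebra which factors through `3 × 3` matrices over a commutative
ring of characteristic 3. -/

namespace Pool.Agent.Helper4.NotSpecht

section ext
variable {F : Type*} [Field F] {M : Type*} [AddCommGroup M] [Module F M]

variable (F M) in
/-- functionals on the tensor algebra killing the exterior relations -/
def Y0 : Submodule F (TensorAlgebra F M →ₗ[F] F) where
  carrier := {φ | ∀ (u u' : TensorAlgebra F M) (v : M),
    φ (u * (TensorAlgebra.ι F v * TensorAlgebra.ι F v) * u') = 0}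
  add_mem' := by
    intro φ ψ h h' u u' v
    rw [LinearMap.add_apply, h, h', add_zero]
  zero_mem' := by intro u u' v; rfl
  smul_mem' := by
    intro c φ h u u' v
    rw [LinearMap.smul_apply, h, smul_zero]

/-- right multiplication action of a vector -/
noncomputable def rr (v : M) : Y0 F M →ₗ[F] Y0 F M where
  toFun φ := ⟨φ.1.comp (LinearMap.mulRight F (TensorAlgebra.ι F v)), by
    intro u u' w
    have := φ.2 u (u' * TensorAlgebra.ι F v) w
    rw [LinearMap.comp_apply, LinearMap.mulRight_apply, mul_assoc _ u' _]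
    exact this⟩
  map_add' φ ψ := by ext; rfl
  map_smul' c φ := by ext; rfl

lemma rr_apply (v : M) (φ : Y0 F M) (u : TensorAlgebra F M) :
    (rr v φ).1 u = φ.1 (u * TensorAlgebra.ι F v) := rfl

noncomputable def rrl : M →ₗ[F] Module.End F (Y0 F M) where
  toFun v := rr v
  map_add' v w := by
    ext φ u
    simp [rr_apply, mul_add]
  map_smul' c v := by
    ext φ u
    simp [rr_apply]

lemma rrl_sq (v : M) : (rrl v : Module.End F (Y0 F M)) * rrl v = 0 := by
  ext φ u
  have := φ.2 u 1 v
  change φ.1 (u * TensorAlgebra.ι F v * TensorAlgebra.ι F v) = 0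
  rw [mul_one] at this
  rw [mul_assoc]; exact this

/-- the action of the exterior algebra -/
noncomputable def LL : ExteriorAlgebra F M →ₐ[F] Module.End F (Y0 F M) :=
  ExteriorAlgebra.lift F ⟨rrl, rrl_sq⟩

lemma LL_apply (t : TensorAlgebra F M) : ∀ (φ : Y0 F M) (u : TensorAlgebra F M),
    (LL (TensorAlgebra.toExterior t) φ).1 u = φ.1 (u * t) := by
  induction t using TensorAlgebra.induction with
  | algebraMap r =>
    intro φ u
    rw [AlgHom.commutes, AlgHom.commutes, Module.algebraMap_end_apply, ← Algebra.commutes,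
      ← Algebra.smul_def, map_smul]
    rfl
  | ι x =>
    intro φ u
    rw [TensorAlgebra.toExterior_ι, LL, ExteriorAlgebra.lift_ι_apply]
    rfl
  | mul a b ha hb =>
    intro φ u
    rw [map_mul, map_mul, Module.End.mul_apply, ha, hb, mul_assoc]
  | add a b ha hb =>
    intro φ u
    rw [map_add, map_add, mul_add, map_add, ← ha, ← hb]
    rfl

lemma exists_top (φ : TensorAlgebra F M →ₗ[F] F)
    (h : ∀ (u u' : TensorAlgebra F M) (v : M),
      φ (u * (TensorAlgebra.ι F v * TensorAlgebra.ι F v) * u') = 0) :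
    ∃ top : ExteriorAlgebra F M →ₗ[F] F, ∀ t, top (TensorAlgebra.toExterior t) = φ t := by
  refine ⟨{ toFun := fun g => (LL g ⟨φ, h⟩).1 1, map_add' := ?_, map_smul' := ?_ }, ?_⟩
  · intro a b; rw [map_add]; rfl
  · intro c a; rw [map_smul]; rfl
  · intro t
    have := LL_apply t ⟨φ, h⟩ 1
    rw [one_mul] at this
    exact this

end ext

section mat
variable {F : Type*} [Field F] [CharP F 3] {M : Type*} [AddCommGroup M] [Module F M]
variable {P : Type*} [CommRing P] [Algebra F P]

/-- the basic matrices -/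
def XX (x y : P) : Matrix (Fin 3) (Fin 3) P := !![0, x, y; y, 0, 0; -x, 0, 0]

def UU : Matrix (Fin 3) (Fin 3) P := !![1, 0, 0; 0, 1, 0; 0, 1, 1]
def UV : Matrix (Fin 3) (Fin 3) P := !![1, 0, 0; 0, 1, 0; 0, -1, 1]

lemma UU_UV : (UU : Matrix (Fin 3) (Fin 3) P) * UV = 1 := by
  ext i j
  fin_cases i <;> fin_cases j <;> simp [UU, UV, Matrix.mul_apply, Fin.sum_univ_three]

lemma UV_UU : (UV : Matrix (Fin 3) (Fin 3) P) * UU = 1 := by
  ext i j
  fin_cases i <;> fin_cases j <;> simp [UU, UV, Matrix.mul_apply, Fin.sum_univ_three]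

/-- twisted automorphism of the matrix algebra -/
noncomputable def gt (g : P →ₐ[F] P) : Matrix (Fin 3) (Fin 3) P →ₐ[F] Matrix (Fin 3) (Fin 3) P where
  toFun m := UU * m.map g * UV
  map_one' := by rw [Matrix.map_one _ (map_zero g) (map_one g), mul_one, UU_UV]
  map_mul' m n := by
    have : (m * n).map g = m.map g * n.map g := Matrix.map_mul
    rw [this]
    calc UU * (m.map g * n.map g) * UV = UU * m.map g * 1 * n.map g * UV := by
          rw [mul_one]; simp only [mul_assoc]
      _ = _ := by rw [← UV_UU]; simp only [mul_assoc]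
  map_zero' := by rw [Matrix.map_zero _ (map_zero g), mul_zero, zero_mul]
  map_add' m n := by
    have : (m + n).map g = m.map g + n.map g := Matrix.map_add _ (map_add g) _ _
    rw [this, mul_add, add_mul]
  commutes' c := by
    have : (algebraMap F (Matrix (Fin 3) (Fin 3) P) c).map g = algebraMap F _ c := by
      ext i j
      rw [Matrix.map_apply, Matrix.algebraMap_matrix_apply]
      split_ifs <;> simp
    rw [this, ← Algebra.commutes, mul_assoc, UU_UV, mul_one]

omit [CharP F 3] in
lemma gt_apply (g : P →ₐ[F] P) (m : Matrix (Fin 3) (Fin 3) P) :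
    gt g m = UU * m.map g * UV := rfl

omit [CharP F 3] in
lemma gt_of (g : P →ₐ[F] P) (a b c d e f h i j : P) :
    gt g !![a, b, c; d, e, f; h, i, j] =
      !![g a, g b - g c, g c; g d, g e - g f, g f;
        g d + g h, g e + g i - g f - g j, g f + g j] := by
  have h1 : (!![a, b, c; d, e, f; h, i, j] : Matrix (Fin 3) (Fin 3) P).map g =
      !![g a, g b, g c; g d, g e, g f; g h, g i, g j] := by
    ext k l
    fin_cases k <;> fin_cases l <;> rfl
  rw [gt_apply, h1, UU, UV, Matrix.mul_fin_three, Matrix.mul_fin_three]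
  ext k l
  fin_cases k <;> fin_cases l <;> simp <;> ring

lemma gt_corner (g : P →ₐ[F] P) (m : Matrix (Fin 3) (Fin 3) P) : gt g m 0 0 = g (m 0 0) := by
  rw [Matrix.eta_fin_three m, gt_of]
  rfl

lemma gt_XX (g : P →ₐ[F] P) {x y : P} (hx : g x = x + y) (hy : g y = y) :
    gt g (XX x y) = XX x y := by
  rw [XX, gt_of]
  simp [hx, hy]

lemma gt_norm (g : P →ₐ[F] P) {x y : P} (hx : g x = x + y) (hy : g y = y) :
    ∃ Y : Matrix (Fin 3) (Fin 3) P, XX x y * XX x y = Y + gt g Y + gt g (gt g Y) := by
  have h3 : (3 : P) = 0 := by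
    have h : ((3 : ℕ) : F) = 0 := CharP.cast_eq_zero F 3
    have : algebraMap F P ((3 : ℕ) : F) = 0 := by rw [h, map_zero]
    rw [map_natCast] at this
    exact_mod_cast this
  refine ⟨!![0, 0, 0; 0, 0, -x ^ 2; 0, -x ^ 2, 0], ?_⟩
  rw [gt_of, gt_of, XX, Matrix.mul_fin_three]
  simp only [map_zero, map_neg, map_pow, map_add, map_sub, hx, hy]
  ext i j
  fin_cases i <;> fin_cases j
  · simp; ring
  · simp
  · simp
  · simp
  · simp; linear_combination (-3 * x * y - 3 * y ^ 2 - x ^ 2) * h3
  · simp; linear_combination (x ^ 2 + 2 * x * y + 2 * y ^ 2) * h3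
  · simp
  · simp; linear_combination (-4 * x * y - x ^ 2 - 4 * y ^ 2) * h3
  · simp; linear_combination (x ^ 2 + 3 * x * y + 3 * y ^ 2) * h3

end mat

end Pool.Agent.Helper4.NotSpecht
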